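import Mathlib

set_option autoImplicit false

/-! Subgroups of a finite non-perfect group. -/

namespace Pool.Agent.X239.PM

open Subgroup

theorem inter_inj {G : Type*} [Group G] {M : Subgroup G} (hM : IsCoatom M) (hN : M.Normal)
    {x : G} (hx : x ∉ M) {K K' : Subgroup G} (hK : x ∈ K) (hK' : x ∈ K') (h : K ⊓ M ≤ K' ⊓ M) :
    K ≤ K' := by
  intro k hk
  have htop : zpowers x ⊔ M = ⊤ := by
    rw [sup_comm]
    apply hM.2
    refine lt_of_le_of_ne le_sup_left fun h => hx ?_
    rw [h]
    exact (le_sup_right : zpowers x ≤ M ⊔ zpowers x) (mem_zpowers x)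
  have hk2 : k ∈ ((zpowers x ⊔ M : Subgroup G) : Set G) := by rw [htop]; trivial
  rw [Subgroup.mul_normal] at hk2
  obtain ⟨z, hz, m, hm, rfl⟩ := Set.mem_mul.1 hk2
  have hzK : z ∈ K := (zpowers_le.2 hK) hz
  have hzK' : z ∈ K' := (zpowers_le.2 hK') hz
  have hmK : m ∈ K := by
    have := K.mul_mem (K.inv_mem hzK) hk
    rwa [inv_mul_cancel_left] at this
  exact K'.mul_mem hzK' (h ⟨hmK, hm⟩).1

theorem group_strict (G : Type*) [Group G] [Finite G] (hG : commutator G ≠ ⊤)
    (h3 : 3 ≤ Nat.card (Subgroup G)) :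
    ∃ g : G, 2 * Nat.card {H : Subgroup G // g ∈ H} < Nat.card (Subgroup G) := by
  classical
  by_contra hcon
  push Not at hcon
  have : Fintype (Subgroup G) := Fintype.ofFinite _
  obtain ⟨M, hM, hcM⟩ : ∃ M, IsCoatom M ∧ commutator G ≤ M := by
    rcases eq_top_or_exists_le_coatom (commutator G) with h | ⟨M, hM, h⟩
    · exact absurd h hG
    · exact ⟨M, hM, h⟩
  have hN : M.Normal := by
    constructor
    intro m hm g
    have h1 : g * m * g⁻¹ * m⁻¹ ∈ commutator G :=
      Subgroup.commutator_mem_commutator (Subgroup.mem_top g) (Subgroup.mem_top m)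
    have h2 := M.mul_mem (hcM h1) hm
    rwa [inv_mul_cancel_right] at h2
  have hcard : ∀ g : G, Nat.card {H : Subgroup G // g ∈ H} =
      (Finset.univ.filter (fun H : Subgroup G => g ∈ H)).card := by
    intro g
    rw [Nat.card_eq_fintype_card, Fintype.card_subtype]
  have hall : Nat.card (Subgroup G) = (Finset.univ : Finset (Subgroup G)).card := by
    rw [Nat.card_eq_fintype_card, Finset.card_univ]
  have key : ∀ x : G, x ∉ M → ∀ K : Subgroup G, x ∉ K → K ≤ M := by
    intro x hx K hxK
    have hsub : (Finset.univ.filter (fun H : Subgroup G => x ∈ H)).image (fun H => H ⊓ M) ⊆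
        Finset.univ.filter (fun H : Subgroup G => x ∉ H) := by
      intro H hH
      obtain ⟨H', _, rfl⟩ := Finset.mem_image.1 hH
      rw [Finset.mem_filter]
      exact ⟨Finset.mem_univ _, fun h => hx h.2⟩
    have hinj : ((Finset.univ.filter (fun H : Subgroup G => x ∈ H)).image
        (fun H => H ⊓ M)).card = (Finset.univ.filter (fun H : Subgroup G => x ∈ H)).card := by
      apply Finset.card_image_of_injOn
      intro H hH H' hH' h
      rw [Finset.mem_coe, Finset.mem_filter] at hH hH'
      have h' : H ⊓ M = H' ⊓ M := h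
      exact le_antisymm (inter_inj hM hN hx hH.2 hH'.2 h'.le) (inter_inj hM hN hx hH'.2 hH.2 h'.ge)
    have h1 := Finset.card_le_card hsub
    have h2 := hcon x
    rw [hcard, hall] at h2
    have h4 := Finset.card_filter_add_card_filter_not (s := (Finset.univ : Finset (Subgroup G)))
      (fun H : Subgroup G => x ∈ H)
    have heq : (Finset.univ.filter (fun H : Subgroup G => x ∈ H)).image (fun H => H ⊓ M) =
        Finset.univ.filter (fun H : Subgroup G => x ∉ H) := by
      apply Finset.eq_of_subset_of_card_le hsub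
      rw [hinj] at h1 ⊢
      omega
    have hK : K ∈ Finset.univ.filter (fun H : Subgroup G => x ∉ H) :=
      Finset.mem_filter.2 ⟨Finset.mem_univ _, hxK⟩
    rw [← heq] at hK
    obtain ⟨H, _, rfl⟩ := Finset.mem_image.1 hK
    exact inf_le_right
  have hgen : ∀ x : G, x ∉ M → ∀ y : G, y ∉ M → y ∈ zpowers x := by
    intro x hx y hy
    by_contra h
    exact hx (key y hy (zpowers x) h (mem_zpowers x))
  obtain ⟨x, hx⟩ : ∃ x, x ∉ M := by
    by_contra h
    push Not at h
    exact hM.1 ((Subgroup.eq_top_iff' M).2 h)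
  have htop : zpowers x = ⊤ := by
    rw [Subgroup.eq_top_iff']
    intro g
    by_cases hg : g ∈ M
    · have hxg : x * g ∉ M := by
        intro h
        apply hx
        have := M.mul_mem h (M.inv_mem hg)
        rwa [mul_inv_cancel_right] at this
      have h1 := hgen x hx _ hxg
      have h2 := (zpowers x).mul_mem ((zpowers x).inv_mem (mem_zpowers x)) h1
      rwa [inv_mul_cancel_left] at h2
    · exact hgen x hx g hg
  have hone : Finset.univ.filter (fun H : Subgroup G => x ∈ H) = {⊤} := by
    ext H
    rw [Finset.mem_filter, Finset.mem_singleton]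
    constructor
    · rintro ⟨_, h⟩
      rw [eq_top_iff, ← htop]
      exact zpowers_le.2 h
    · rintro rfl
      exact ⟨Finset.mem_univ _, trivial⟩
  have h5 := hcon x
  rw [hcard, hone, Finset.card_singleton] at h5
  omega

end Pool.Agent.X239.PM

namespace Pool.Agent.X239.PM

/-- the same in terms of the family of the complements of the subgroups -/
theorem group_family (G : Type*) [Group G] [Fintype G] [DecidableEq G] (hG : commutator G ≠ ⊤)
    (A : Finset (Finset G))
    (hA : ∀ X : Finset G, X ∈ A ↔ ∃ H : Subgroup G, ∀ x, x ∈ X ↔ x ∉ H) (h3 : 3 ≤ A.card) :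
    (∀ X ∈ A, ∀ Y ∈ A, X ∪ Y ∈ A) ∧ ∃ x : G, A.card < 2 * (A.filter (fun X => x ∈ X)).card := by
  classical
  have : Fintype (Subgroup G) := Fintype.ofFinite _
  have hAeq : A = (Finset.univ : Finset (Subgroup G)).image
      (fun H => Finset.univ.filter (fun x => x ∉ H)) := by
    ext X
    rw [hA, Finset.mem_image]
    constructor
    · rintro ⟨H, hH⟩
      refine ⟨H, Finset.mem_univ _, ?_⟩
      ext x
      rw [Finset.mem_filter, hH]
      simp
    · rintro ⟨H, _, rfl⟩
      exact ⟨H, fun x => by simp⟩
  have hinj : Function.Injective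
      (fun H : Subgroup G => (Finset.univ.filter (fun x : G => x ∉ H))) := by
    intro H K h
    have h' : Finset.univ.filter (fun x : G => x ∉ H) = Finset.univ.filter (fun x : G => x ∉ K) := h
    ext x
    have := Finset.ext_iff.1 h' x
    simp only [Finset.mem_filter, Finset.mem_univ, true_and] at this
    tauto
  have hcard : A.card = (Finset.univ : Finset (Subgroup G)).card := by
    rw [hAeq, Finset.card_image_of_injective _ hinj]
  have hfr : ∀ x : G, (A.filter (fun X => x ∈ X)).card =
      (Finset.univ.filter (fun H : Subgroup G => x ∉ H)).card := by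
    intro x
    rw [← Finset.card_image_of_injective (Finset.univ.filter (fun H : Subgroup G => x ∉ H)) hinj]
    congr 1
    ext X
    rw [Finset.mem_filter, hAeq, Finset.mem_image, Finset.mem_image]
    constructor
    · rintro ⟨⟨H, _, rfl⟩, hx⟩
      refine ⟨H, Finset.mem_filter.2 ⟨Finset.mem_univ _, ?_⟩, rfl⟩
      simpa using hx
    · rintro ⟨H, hH, rfl⟩
      rw [Finset.mem_filter] at hH
      exact ⟨⟨H, Finset.mem_univ _, rfl⟩, by simpa using hH.2⟩
  have hs : Nat.card (Subgroup G) = (Finset.univ : Finset (Subgroup G)).card := by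
    rw [Nat.card_eq_fintype_card, Finset.card_univ]
  constructor
  · intro X hX Y hY
    obtain ⟨H, hH⟩ := (hA X).1 hX
    obtain ⟨K, hK⟩ := (hA Y).1 hY
    rw [hA]
    refine ⟨H ⊓ K, fun x => ?_⟩
    rw [Finset.mem_union, hH, hK, Subgroup.mem_inf]
    tauto
  · obtain ⟨g, hg⟩ := group_strict G hG (by rw [hs, ← hcard]; exact h3)
    refine ⟨g, ?_⟩
    rw [hfr, hcard]
    rw [hs, Nat.card_eq_fintype_card, Fintype.card_subtype] at hg
    have h4 := Finset.card_filter_add_card_filter_not (s := (Finset.univ : Finset (Subgroup G)))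
      (fun H : Subgroup G => g ∈ H)
    omega

end Pool.Agent.X239.PM
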