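import Mathlib

set_option autoImplicit false

/-! Union-closed families with modular atoms: Poonen's strict inequality. -/

namespace Pool.Agent.X239.PM

open Finset

variable {α : Type*} [DecidableEq α]

/-- the number of members containing `x` -/
def fr (A : Finset (Finset α)) (x : α) : ℕ := (A.filter (fun X => x ∈ X)).card

/-- `A` consists of all unions of subfamilies of some pairwise disjoint nonempty sets -/
def Blocks (A : Finset (Finset α)) : Prop :=
  ∃ P : Finset (Finset α), (∀ p ∈ P, p.Nonempty) ∧ (∀ p ∈ P, ∀ q ∈ P, p ≠ q → Disjoint p q) ∧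
    ∀ S, S ∈ A ↔ ∃ Q ⊆ P, S = Q.sup id

theorem card_split (A : Finset (Finset α)) (x : α) :
    (A.filter (fun X => x ∉ X)).card + fr A x = A.card := by
  unfold fr
  rw [add_comm]
  exact Finset.card_filter_add_card_filter_not (s := A) (fun X => x ∈ X)

theorem dich {A : Finset (Finset α)} (hU : ∀ X ∈ A, ∀ Y ∈ A, X ∪ Y ∈ A) {B : Finset α} (hB : B ∈ A)
    {x : α} (hx : x ∈ B)
    (hinj : ∀ Y ∈ A, ∀ Z ∈ A, x ∉ Y → x ∉ Z → Y ∪ B = Z ∪ B → Y = Z)
    (hl : ∀ y, 2 * fr A y ≤ A.card) :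
    (∀ Y ∈ A, x ∉ Y → Disjoint Y B) ∧ (∀ S ∈ A, x ∈ S → ∃ Y ∈ A, x ∉ Y ∧ S = Y ∪ B) ∧
      A.card = 2 * (A.filter (fun X => x ∉ X)).card := by
  have hs := card_split A x
  have himg : (A.filter (fun X => x ∉ X)).image (fun Y => Y ∪ B) ⊆ A.filter (fun X => x ∈ X) := by
    intro S hS
    obtain ⟨Y, hY, rfl⟩ := mem_image.1 hS
    rw [mem_filter] at hY ⊢
    exact ⟨hU Y hY.1 B hB, mem_union_right _ hx⟩
  have hcard : ((A.filter (fun X => x ∉ X)).image (fun Y => Y ∪ B)).card =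
      (A.filter (fun X => x ∉ X)).card := by
    apply card_image_of_injOn
    intro Y hY Z hZ h
    rw [mem_coe, mem_filter] at hY hZ
    exact hinj Y hY.1 Z hZ.1 hY.2 hZ.2 h
  have h1 := card_le_card himg
  rw [hcard] at h1
  have h2 := hl x
  have h1' : (A.filter (fun X => x ∉ X)).card ≤ fr A x := h1
  have heq : (A.filter (fun X => x ∉ X)).card = fr A x := by omega
  have hset : (A.filter (fun X => x ∉ X)).image (fun Y => Y ∪ B) = A.filter (fun X => x ∈ X) := by
    apply eq_of_subset_of_card_le himg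
    rw [hcard, heq]
    rfl
  have hall : ∀ S ∈ A, x ∈ S → ∃ Y ∈ A, x ∉ Y ∧ S = Y ∪ B := by
    intro S hS hxS
    have : S ∈ A.filter (fun X => x ∈ X) := mem_filter.2 ⟨hS, hxS⟩
    rw [← hset] at this
    obtain ⟨Y, hY, h⟩ := mem_image.1 this
    rw [mem_filter] at hY
    exact ⟨Y, hY.1, hY.2, h.symm⟩
  refine ⟨?_, hall, by omega⟩
  intro Y hY hxY
  rw [Finset.disjoint_left]
  intro z hzY hzB
  have hsub : insert Y (A.filter (fun X => x ∈ X)) ⊆ A.filter (fun X => z ∈ X) := by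
    intro S hS
    rw [mem_insert] at hS
    rcases hS with rfl | hS
    · exact mem_filter.2 ⟨hY, hzY⟩
    · rw [mem_filter] at hS
      obtain ⟨W, _, _, rfl⟩ := hall S hS.1 hS.2
      exact mem_filter.2 ⟨hS.1, mem_union_right _ hzB⟩
  have h3 := card_le_card hsub
  rw [card_insert_of_notMem (by simp [hxY])] at h3
  have h4 : (A.filter (fun X => x ∈ X)).card = fr A x := rfl
  have h5 : (A.filter (fun X => z ∈ X)).card = fr A z := rfl
  have h6 := hl z
  omega

/-- modular atoms in all upper intervals (in terms of the family) -/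
def Cond (A : Finset (Finset α)) : Prop :=
  ∀ C ∈ A, C ≠ A.sup id → ∃ B ∈ A, C ⊂ B ∧ ∀ M ∈ A, C ⊆ M → ¬ B ⊆ M → ∀ Y ∈ A, ∀ Z ∈ A,
    C ⊆ Y → C ⊆ Z → Y ⊆ M → Z ⊆ M → Y ∪ B = Z ∪ B → Y = Z

theorem sup_mem_of {A : Finset (Finset α)} (hU : ∀ X ∈ A, ∀ Y ∈ A, X ∪ Y ∈ A)
    (h0 : ∅ ∈ A) {Q : Finset (Finset α)} (hQ : Q ⊆ A) : Q.sup id ∈ A := by
  induction Q using Finset.induction_on with
  | empty => simpa using h0
  | insert a s ha ih =>
    rw [Finset.sup_insert]
    exact hU _ (hQ (mem_insert_self _ _)) _ (ih fun t ht => hQ (mem_insert_of_mem ht))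

/-- one step of the induction: adding a block -/
theorem blocks_step {A : Finset (Finset α)} (hU : ∀ X ∈ A, ∀ Y ∈ A, X ∪ Y ∈ A) (h0 : ∅ ∈ A)
    {B : Finset α} (hB : B ∈ A) {x : α} (hx : x ∈ B)
    (hd : ∀ Y ∈ A, x ∉ Y → Disjoint Y B) (hall : ∀ S ∈ A, x ∈ S → ∃ Y ∈ A, x ∉ Y ∧ S = Y ∪ B)
    (h : Blocks (A.filter (fun X => x ∉ X))) : Blocks A := by
  obtain ⟨P, hP1, hP2, hP3⟩ := h
  have hPA : ∀ p ∈ P, p ∈ A ∧ x ∉ p := by
    intro p hp
    have : p ∈ A.filter (fun X => x ∉ X) := (hP3 p).2 ⟨{p}, by simpa using hp, by simp⟩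
    exact mem_filter.1 this
  refine ⟨insert B P, ?_, ?_, ?_⟩
  · intro p hp
    rcases mem_insert.1 hp with rfl | hp
    · exact ⟨x, hx⟩
    · exact hP1 p hp
  · intro p hp q hq hpq
    rcases mem_insert.1 hp with hp' | hp'
    · rcases mem_insert.1 hq with hq' | hq'
      · exact absurd (hp'.trans hq'.symm) hpq
      · rw [hp']
        exact (hd q (hPA q hq').1 (hPA q hq').2).symm
    · rcases mem_insert.1 hq with hq' | hq'
      · rw [hq']
        exact hd p (hPA p hp').1 (hPA p hp').2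
      · exact hP2 p hp' q hq' hpq
  · intro S
    constructor
    · intro hS
      by_cases hxS : x ∈ S
      · obtain ⟨Y, hY, hxY, rfl⟩ := hall S hS hxS
        obtain ⟨Q, hQ, rfl⟩ := (hP3 Y).1 (mem_filter.2 ⟨hY, hxY⟩)
        refine ⟨insert B Q, insert_subset_insert _ hQ, ?_⟩
        rw [Finset.sup_insert, Finset.union_comm]
        rfl
      · obtain ⟨Q, hQ, rfl⟩ := (hP3 S).1 (mem_filter.2 ⟨hS, hxS⟩)
        exact ⟨Q, hQ.trans (subset_insert _ _), rfl⟩
    · rintro ⟨Q, hQ, rfl⟩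
      apply sup_mem_of hU h0
      intro q hq
      rcases mem_insert.1 (hQ hq) with rfl | h
      · exact hB
      · exact (hPA q h).1

theorem main : ∀ (n : ℕ) (A : Finset (Finset α)), A.card = n → (∀ X ∈ A, ∀ Y ∈ A, X ∪ Y ∈ A) →
    ∅ ∈ A → Cond A → (∃ y, A.card < 2 * fr A y) ∨ Blocks A := by
  intro n
  induction n using Nat.strong_induction_on with
  | _ n ih =>
  intro A hn hU h0 hC
  by_cases hl : ∃ y, A.card < 2 * fr A y
  · exact Or.inl hl
  push Not at hl
  right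
  have hsup : A.sup id ∈ A := sup_mem_of hU h0 (Subset.refl _)
  by_cases htop : (∅ : Finset α) = A.sup id
  · refine ⟨∅, by simp, by simp, fun S => ?_⟩
    constructor
    · intro hS
      refine ⟨∅, by simp, ?_⟩
      rw [Finset.sup_empty]
      have : S ⊆ A.sup id := Finset.le_sup (f := id) hS
      rw [← htop] at this
      exact Finset.subset_empty.1 this
    · rintro ⟨Q, hQ, rfl⟩
      rw [Finset.subset_empty.1 hQ, Finset.sup_empty]
      exact h0
  obtain ⟨B, hB, hCB, hmod⟩ := hC ∅ h0 htop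
  obtain ⟨x, hx⟩ : B.Nonempty := by
    rw [Finset.nonempty_iff_ne_empty]
    rintro rfl
    exact hCB.2 (Subset.refl _)
  set M := (A.filter (fun X => x ∉ X)).sup id with hM
  have hMA : M ∈ A := sup_mem_of hU h0 (filter_subset _ _)
  have hxM : x ∉ M := by
    rw [hM, Finset.mem_sup]
    rintro ⟨v, hv, hxv⟩
    exact (mem_filter.1 hv).2 hxv
  have hle : ∀ Y ∈ A, x ∉ Y → Y ⊆ M := fun Y hY hxY =>
    Finset.le_sup (f := id) (mem_filter.2 ⟨hY, hxY⟩)
  have hinj : ∀ Y ∈ A, ∀ Z ∈ A, x ∉ Y → x ∉ Z → Y ∪ B = Z ∪ B → Y = Z := by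
    intro Y hY Z hZ hxY hxZ h
    exact hmod M hMA (empty_subset _) (fun h => hxM (h hx)) Y hY Z hZ (empty_subset _)
      (empty_subset _) (hle Y hY hxY) (hle Z hZ hxZ) h
  obtain ⟨hd, hall, hcard⟩ := dich hU hB hx hinj hl
  set A0 := A.filter (fun X => x ∉ X) with hA0
  have hmem : ∀ Y, Y ∈ A0 ↔ Y ∈ A ∧ x ∉ Y := fun Y => by rw [hA0, mem_filter]
  have h00 : ∅ ∈ A0 := (hmem _).2 ⟨h0, by simp⟩
  have hU0 : ∀ X ∈ A0, ∀ Y ∈ A0, X ∪ Y ∈ A0 := by
    intro X hX Y hY
    rw [hmem] at hX hY ⊢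
    refine ⟨hU X hX.1 Y hY.1, ?_⟩
    rw [mem_union, not_or]
    exact ⟨hX.2, hY.2⟩
  have hpos : 0 < A0.card := Finset.card_pos.2 ⟨∅, h00⟩
  have hcancel : ∀ Y ∈ A0, ∀ Z ∈ A0, Y ∪ B ⊆ Z ∪ B → Y ⊆ Z := by
    intro Y hY Z hZ h z hz
    have := h (mem_union_left _ hz)
    rcases mem_union.1 this with h1 | h1
    · exact h1
    · exact absurd h1 (Finset.disjoint_left.1 (hd Y ((hmem Y).1 hY).1 ((hmem Y).1 hY).2) hz)
  have hC0 : Cond A0 := by
    intro C hC0 hCtop
    have hCA : C ∪ B ∈ A := hU C ((hmem C).1 hC0).1 B hB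
    have hne : C ∪ B ≠ A.sup id := by
      intro h
      apply hCtop
      apply le_antisymm (Finset.le_sup (f := id) hC0)
      apply hcancel _ _ _ hC0
      · rw [h]
        apply Finset.union_subset
        · exact Finset.sup_mono (filter_subset _ _)
        · exact Finset.le_sup (f := id) hB
      · exact sup_mem_of hU0 h00 (Subset.refl _)
    obtain ⟨B1, hB1, hCB1, hmod1⟩ := hC (C ∪ B) hCA hne
    have hBB1 : B ⊆ B1 := subset_union_right.trans hCB1.1
    obtain ⟨B0, hB0, hxB0, rfl⟩ := hall B1 hB1 (hBB1 hx)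
    have hB00 : B0 ∈ A0 := (hmem _).2 ⟨hB0, hxB0⟩
    refine ⟨B0, hB00, ?_, ?_⟩
    · refine ⟨hcancel _ hC0 _ hB00 hCB1.1, fun h => hCB1.2 ?_⟩
      exact Finset.union_subset_union_left h
    · intro M0 hM0 hCM hBM Y hY Z hZ hCY hCZ hYM hZM hYZ
      have := hmod1 (M0 ∪ B) (hU _ ((hmem _).1 hM0).1 _ hB) (union_subset_union_left hCM)
        (fun h => hBM (hcancel _ hB00 _ hM0 h))
        (Y ∪ B) (hU _ ((hmem _).1 hY).1 _ hB) (Z ∪ B) (hU _ ((hmem _).1 hZ).1 _ hB)
        (union_subset_union_left hCY) (union_subset_union_left hCZ) (union_subset_union_left hYM)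
        (union_subset_union_left hZM) (by
          have e1 : Y ∪ B ∪ (B0 ∪ B) = (Y ∪ B0) ∪ B := by
            ext z; simp only [mem_union]; tauto
          have e2 : Z ∪ B ∪ (B0 ∪ B) = (Z ∪ B0) ∪ B := by
            ext z; simp only [mem_union]; tauto
          rw [e1, e2, hYZ])
      exact Subset.antisymm (hcancel _ hY _ hZ (by rw [this])) (hcancel _ hZ _ hY (by rw [this]))
  rcases ih A0.card (by omega) A0 rfl hU0 h00 hC0 with ⟨y, hy⟩ | hbl
  · exfalso
    have h2 : 2 * fr A0 y ≤ fr A y := by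
      have hsub : A0.filter (fun X => y ∈ X) ∪ (A0.filter (fun X => y ∈ X)).image (fun Y => Y ∪ B) ⊆
          A.filter (fun X => y ∈ X) := by
        intro S hS
        rcases mem_union.1 hS with h | h
        · rw [mem_filter] at h
          exact mem_filter.2 ⟨((hmem _).1 h.1).1, h.2⟩
        · obtain ⟨Y, hY, rfl⟩ := mem_image.1 h
          rw [mem_filter] at hY
          exact mem_filter.2 ⟨hU _ ((hmem _).1 hY.1).1 _ hB, mem_union_left _ hY.2⟩
      have hdis : Disjoint (A0.filter (fun X => y ∈ X))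
          ((A0.filter (fun X => y ∈ X)).image (fun Y => Y ∪ B)) := by
        rw [Finset.disjoint_left]
        intro S hS h
        obtain ⟨Y, hY, rfl⟩ := mem_image.1 h
        rw [mem_filter] at hS
        exact ((hmem _).1 hS.1).2 (mem_union_right _ hx)
      have h3 := card_le_card hsub
      rw [card_union_of_disjoint hdis, card_image_of_injOn (by
        intro Y hY Z hZ h
        rw [mem_coe, mem_filter] at hY hZ
        have h' : Y ∪ B = Z ∪ B := h
        exact Subset.antisymm (hcancel _ hY.1 _ hZ.1 (by rw [h']))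
          (hcancel _ hZ.1 _ hY.1 (by rw [h'])))] at h3
      unfold fr
      omega
    have := hl y
    omega
  · exact blocks_step hU h0 hB hx hd hall hbl

/-- a separating family of blocks is a power set -/
theorem powerset_of_blocks {A : Finset (Finset α)} (h : Blocks A)
    (hsep : ∀ x ∈ A.sup id, ∀ y ∈ A.sup id, x ≠ y → ∃ S ∈ A, ¬ (x ∈ S ↔ y ∈ S)) :
    A = (A.sup id).powerset := by
  obtain ⟨P, hP1, hP2, hP3⟩ := h
  have hone : ∀ p ∈ P, ∀ x ∈ p, ∀ y ∈ p, x = y := by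
    intro p hp x hx y hy
    by_contra hxy
    have hpA : p ∈ A := (hP3 p).2 ⟨{p}, by simpa using hp, by simp⟩
    have hs : p ⊆ A.sup id := Finset.le_sup (f := id) hpA
    obtain ⟨S, hS, h⟩ := hsep x (hs hx) y (hs hy) hxy
    obtain ⟨Q, hQ, rfl⟩ := (hP3 S).1 hS
    apply h
    have key : ∀ u ∈ p, (u ∈ Q.sup id ↔ p ∈ Q) := by
      intro u hu
      rw [Finset.mem_sup]
      constructor
      · rintro ⟨q, hq, huq⟩
        by_cases hpq : p = q
        · rwa [hpq]
        · exact absurd huq (Finset.disjoint_left.1 (hP2 p hp q (hQ hq) hpq) hu)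
      · intro h
        exact ⟨p, h, hu⟩
    rw [key x hx, key y hy]
  ext S
  rw [mem_powerset]
  constructor
  · intro hS
    exact Finset.le_sup (f := id) hS
  · intro hS
    rw [hP3]
    refine ⟨P.filter (fun p => p ⊆ S), filter_subset _ _, ?_⟩
    ext z
    rw [Finset.mem_sup]
    constructor
    · intro hz
      have := hS hz
      rw [Finset.mem_sup] at this
      obtain ⟨T, hT, hzT⟩ := this
      obtain ⟨Q, hQ, rfl⟩ := (hP3 T).1 hT
      rw [id, Finset.mem_sup] at hzT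
      obtain ⟨p, hp, hzp⟩ := hzT
      refine ⟨p, mem_filter.2 ⟨hQ hp, ?_⟩, hzp⟩
      intro w hw
      rwa [hone p (hQ hp) w hw z hzp]
    · rintro ⟨p, hp, hzp⟩
      exact (mem_filter.1 hp).2 hzp

/-- in a family of blocks (other than `{∅}`) some element lies in at least half of the members -/
theorem half_of_blocks {A : Finset (Finset α)} (hU : ∀ X ∈ A, ∀ Y ∈ A, X ∪ Y ∈ A) (h : Blocks A)
    (hne : ∃ S ∈ A, S.Nonempty) : ∃ y, A.card ≤ 2 * fr A y := by
  obtain ⟨P, hP1, hP2, hP3⟩ := h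
  obtain ⟨S, hS, z, hz⟩ := hne
  obtain ⟨Q, hQ, rfl⟩ := (hP3 S).1 hS
  rw [Finset.mem_sup] at hz
  obtain ⟨p, hp, hzp⟩ := hz
  have hpP := hQ hp
  have hpA : p ∈ A := (hP3 p).2 ⟨{p}, by simpa using hpP, by simp⟩
  refine ⟨z, ?_⟩
  have hs := card_split A z
  have hdisj : ∀ Y ∈ A, z ∉ Y → Disjoint Y p := by
    intro Y hY hzY
    obtain ⟨R, hR, rfl⟩ := (hP3 Y).1 hY
    rw [Finset.disjoint_left]
    intro u hu hup
    rw [Finset.mem_sup] at hu
    obtain ⟨q, hq, huq⟩ := hu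
    by_cases hpq : q = p
    · apply hzY
      rw [Finset.mem_sup]
      exact ⟨q, hq, by rw [hpq]; exact hzp⟩
    · exact Finset.disjoint_left.1 (hP2 q (hR hq) p hpP hpq) huq hup
  have h1 : (A.filter (fun X => z ∉ X)).card ≤ fr A z := by
    apply Finset.card_le_card_of_injOn (fun Y => Y ∪ p)
    · intro Y hY
      rw [mem_coe, mem_filter] at hY
      rw [mem_coe, mem_filter]
      exact ⟨hU _ hY.1 _ hpA, mem_union_right _ hzp⟩
    · intro Y hY Z hZ h
      rw [mem_coe, mem_filter] at hY hZ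
      have h' : Y ∪ p = Z ∪ p := h
      ext w
      constructor
      · intro hw
        rcases mem_union.1 (h' ▸ mem_union_left p hw : w ∈ Z ∪ p) with h1 | h1
        · exact h1
        · exact absurd h1 (Finset.disjoint_left.1 (hdisj Y hY.1 hY.2) hw)
      · intro hw
        rcases mem_union.1 (h'.symm ▸ mem_union_left p hw : w ∈ Y ∪ p) with h1 | h1
        · exact h1
        · exact absurd h1 (Finset.disjoint_left.1 (hdisj Z hZ.1 hZ.2) hw)
  omega

end Pool.Agent.X239.PM
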