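import Pool.Agent.X239.PM.Two

set_option autoImplicit false

/-! Connected sets of vertices of a tree plus an edge have two-element tips. -/

namespace Pool.Agent.X239.PM

open Finset SimpleGraph

variable {α : Type*} [DecidableEq α]

/-- one step towards the root `u` -/
def step (T : SimpleGraph α) (u : α) (a b : α) : Prop := T.Adj a b ∧ T.dist u a = T.dist u b + 1

/-- `x` is an ancestor of `y` (or `x = y`) -/
def Anc (T : SimpleGraph α) (u x y : α) : Prop := Relation.ReflTransGen (step T u) y x

/-- adjacency inside `h` -/
def rel (T : SimpleGraph α) (h : Finset α) (a b : α) : Prop := T.Adj a b ∧ a ∈ h ∧ b ∈ h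

theorem step_unique {T : SimpleGraph α} (hT : T.IsTree) (u : α) :
    Relator.RightUnique (step T u) := by
  have key : ∀ a b : α, step T u a b → ∀ p : T.Walk u a, p.IsPath → b = p.penultimate := by
    intro a b ⟨hab, hd⟩ p hp
    apply hT.isAcyclic.eq_penultimate_of_adj_end hp hab
    obtain ⟨q, hq, hq'⟩ := hT.connected.exists_path_of_dist u b
    apply hT.isAcyclic.mem_support_of_ne_mem_support_of_adj_of_isPath hp hq hab
    intro ha
    have h1 := T.dist_le (q.takeUntil a ha)
    have h2 := q.length_takeUntil_le_length ha
    omega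
  intro a b c hab hac
  obtain ⟨p, hp, _⟩ := hT.connected.exists_path_of_dist u a
  rw [key a b hab p hp, key a c hac p hp]

theorem adj_step {T : SimpleGraph α} (hT : T.IsTree) (u : α) {a b : α} (h : T.Adj a b) :
    step T u a b ∨ step T u b a := by
  rcases hT.dist_eq_dist_add_one_of_adj u h with h1 | h1
  · exact Or.inl ⟨h, h1⟩
  · exact Or.inr ⟨h.symm, h1⟩

theorem anc_dist {T : SimpleGraph α} {u x y : α} (h : Anc T u x y) : T.dist u x ≤ T.dist u y := by
  induction h with
  | refl => exact le_refl _
  | tail _ h2 ih =>
    have := h2.2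
    omega

theorem anc_dist_lt {T : SimpleGraph α} {u x y : α} (h : Anc T u x y) (hne : x ≠ y) :
    T.dist u x < T.dist u y := by
  rcases Relation.ReflTransGen.cases_head h with h1 | ⟨c, h1, h2⟩
  · exact absurd h1.symm hne
  · have h3 := anc_dist h2
    have h4 := h1.2
    omega

/-- a chain inside `h` that leaves the set of the descendants of `x` passes through `x` -/
theorem cross {T : SimpleGraph α} (hT : T.IsTree) (u : α) {h : Finset α} {x y z : α}
    (hy : Anc T u x y) (hz : ¬ Anc T u x z) (hc : Relation.ReflTransGen (rel T h) y z) :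
    x ∈ h ∧ ∃ c ∈ h, step T u x c := by
  revert hy
  induction hc using Relation.ReflTransGen.head_induction_on with
  | refl => exact fun hy => absurd hy hz
  | head hac hcz ih =>
    rename_i a c
    intro hy
    by_cases hxc : Anc T u x c
    · exact ih hxc
    · rcases adj_step hT u hac.1 with hs | hs
      · rcases Relation.ReflTransGen.cases_head hy with h1 | ⟨c', h1, h2⟩
        · subst h1
          exact ⟨hac.2.1, c, hac.2.2, hs⟩
        · have := step_unique hT u h1 hs
          subst this
          exact absurd h2 hxc
      · exact absurd (Relation.ReflTransGen.head hs hy) hxc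

/-- two vertices of `h` are joined inside `h` -/
def Joined (T : SimpleGraph α) (h : Finset α) : Prop :=
  ∀ y ∈ h, ∀ z ∈ h, Relation.ReflTransGen (rel T h) y z

theorem rel_symm {T : SimpleGraph α} {h : Finset α} {y z : α}
    (hc : Relation.ReflTransGen (rel T h) y z) : Relation.ReflTransGen (rel T h) z y := by
  induction hc with
  | refl => exact Relation.ReflTransGen.refl
  | tail _ h2 ih => exact Relation.ReflTransGen.head ⟨h2.1.symm, h2.2.2, h2.2.1⟩ ih

theorem top_anc {T : SimpleGraph α} (hT : T.IsTree) (u : α) {h : Finset α} (hj : Joined T h)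
    {x : α} (hx : x ∈ h) (hmin : ∀ y ∈ h, T.dist u x ≤ T.dist u y) :
    ∀ y ∈ h, Anc T u x y := by
  intro y hy
  by_contra hn
  obtain ⟨_, c, hc, hs⟩ := cross hT u (Relation.ReflTransGen.refl : Anc T u x x) hn (hj x hx y hy)
  have h1 := hmin c hc
  have h2 := hs.2
  omega

/-- the first vertex of `g` on the way from `v` up to `x ∈ g` -/
theorem gate {T : SimpleGraph α} {u : α} {g : Finset α} {x v : α} (hx : x ∈ g)
    (h : Anc T u x v) : ∃ z ∈ g, Anc T u x z ∧
      (z = v ∨ ∃ c, step T u c z ∧ c ∉ g ∧ Anc T u c v) := by
  induction h using Relation.ReflTransGen.head_induction_on with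
  | refl => exact ⟨x, hx, Relation.ReflTransGen.refl, Or.inl rfl⟩
  | head hac hcx ih =>
    rename_i a c
    by_cases ha : a ∈ g
    · exact ⟨a, ha, Relation.ReflTransGen.head hac hcx, Or.inl rfl⟩
    · obtain ⟨z, hz, hxz, h1⟩ := ih
      refine ⟨z, hz, hxz, Or.inr ?_⟩
      rcases h1 with rfl | ⟨c', h2, h3, h4⟩
      · exact ⟨a, hac, ha, Relation.ReflTransGen.refl⟩
      · exact ⟨c', h2, h3, Relation.ReflTransGen.head hac h4⟩

/-- the sets considered: connected in the tree, or containing `u` and `v` such that every vertex is
joined to `u` or to `v` -/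
def Good (T : SimpleGraph α) (u v : α) (h : Finset α) : Prop :=
  Joined T h ∨ (u ∈ h ∧ v ∈ h ∧ ∀ y ∈ h, Relation.ReflTransGen (rel T h) y u ∨
    Relation.ReflTransGen (rel T h) y v)

theorem tip_of_good {T : SimpleGraph α} (hT : T.IsTree) (u v : α) {G : Finset (Finset α)}
    (hne : ∀ g ∈ G, g.Nonempty) (hG : ∀ g ∈ G, Good T u v g) : Tip G := by
  classical
  intro G' hG' hne'
  by_cases hA : (G'.filter (fun g => Joined T g)).Nonempty
  · have htop : ∀ g ∈ G'.filter (fun g => Joined T g), ∃ x ∈ g, ∀ y ∈ g,
        T.dist u x ≤ T.dist u y := by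
      intro g hg
      exact Finset.exists_min_image g (fun y => T.dist u y) (hne g (hG' (mem_filter.1 hg).1))
    haveI : Nonempty α := ⟨u⟩
    choose! top htop1 htop2 using htop
    obtain ⟨g, hg, hgmax⟩ := Finset.exists_max_image (G'.filter (fun g => Joined T g))
      (fun g => T.dist u (top g)) hA
    set x := top g with hx
    have hgm := mem_filter.1 hg
    have hxg : x ∈ g := htop1 g hg
    have hanc := top_anc hT u hgm.2 hxg (htop2 g hg)
    -- the second tip
    obtain ⟨z, hz, hxz, hzv⟩ : ∃ z ∈ g, Anc T u x z ∧ (Anc T u x v →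
        z = v ∨ ∃ c, step T u c z ∧ c ∉ g ∧ Anc T u c v) := by
      by_cases hxv : Anc T u x v
      · obtain ⟨z, hz, h1, h2⟩ := gate hxg hxv
        exact ⟨z, hz, h1, fun _ => h2⟩
      · exact ⟨x, hxg, Relation.ReflTransGen.refl, fun h => absurd h hxv⟩
    refine ⟨g, hgm.1, x, hxg, z, hz, ?_⟩
    intro h hh hgh
    obtain ⟨y, hy⟩ := hgh
    rw [mem_inter] at hy
    have hxy := hanc y hy.1
    by_cases hj : Joined T h
    · left
      have hhf : h ∈ G'.filter (fun g => Joined T g) := mem_filter.2 ⟨hh, hj⟩
      have hy0 := htop1 h hhf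
      have hle := hgmax h hhf
      have hanc' := top_anc hT u hj hy0 (htop2 h hhf) y hy.2
      by_cases hxt : x = top h
      · rw [hxt]
        exact hy0
      · have hnot : ¬ Anc T u x (top h) := by
          intro hc
          have := anc_dist_lt hc hxt
          omega
        exact (cross hT u hxy hnot (hj y hy.2 (top h) hy0)).1
    · rcases hG h (hG' hh) with h1 | ⟨hu, hv, h1⟩
      · exact absurd h1 hj
      · rcases h1 y hy.2 with h2 | h2
        · left
          by_cases hxu : x = u
          · rw [hxu]
            exact hu
          · have hnot : ¬ Anc T u x u := by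
              intro hc
              have := anc_dist_lt hc hxu
              rw [SimpleGraph.dist_self] at this
              omega
            exact (cross hT u hxy hnot h2).1
        · by_cases hxv : Anc T u x v
          · right
            rcases hzv hxv with h3 | ⟨c, hcz, hcg, hcv⟩
            · rw [h3]
              exact hv
            · have hncx : ¬ Anc T u c x := by
                intro hc
                have e1 := anc_dist hc
                have e2 := anc_dist hxz
                have e3 := hcz.2
                omega
              have hncy : ¬ Anc T u c y := by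
                intro hc
                exact hcg (cross hT u hc hncx (hgm.2 y hy.1 x hxg)).1
              obtain ⟨_, c', hc', hs⟩ := cross hT u hcv hncy (rel_symm h2)
              rw [step_unique hT u hcz hs]
              exact hc'
          · left
            exact (cross hT u hxy hxv h2).1
  · rw [Finset.not_nonempty_iff_eq_empty, Finset.filter_eq_empty_iff] at hA
    have hall : ∀ h ∈ G', u ∈ h := by
      intro h hh
      rcases hG h (hG' hh) with h1 | h1
      · exact absurd h1 (hA hh)
      · exact h1.1
    obtain ⟨g, hg⟩ := hne'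
    exact ⟨g, hg, u, hall g hg, u, hall g hg, fun h hh _ => Or.inl (hall h hh)⟩

/-- a set that is connected in the tree plus the edge `uv` is good -/
theorem good_of_connected {T H : SimpleGraph α} {u v : α}
    (hH : ∀ a b, H.Adj a b → T.Adj a b ∨ (a = u ∧ b = v) ∨ (a = v ∧ b = u)) {h : Finset α}
    (hc : (H.induce (h : Set α)).Preconnected) : Good T u v h := by
  classical
  have hchain : ∀ y ∈ h, ∀ z ∈ h, Relation.ReflTransGen (rel H h) y z := by
    intro y hy z hz
    obtain ⟨p⟩ := hc ⟨y, hy⟩ ⟨z, hz⟩
    have key : ∀ (a b : (h : Set α)) (_ : (H.induce (h : Set α)).Walk a b),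
        Relation.ReflTransGen (rel H h) a.1 b.1 := by
      intro a b q
      induction q with
      | nil => exact Relation.ReflTransGen.refl
      | cons hadj _ ih =>
        rename_i a' b' c' _
        exact Relation.ReflTransGen.head ⟨hadj, a'.2, b'.2⟩ ih
    exact key _ _ p
  by_cases hj : Joined T h
  · exact Or.inl hj
  · right
    -- some chain has to use the edge `uv`
    have key : ∀ y z, Relation.ReflTransGen (rel H h) y z →
        Relation.ReflTransGen (rel T h) y z ∨ (u ∈ h ∧ v ∈ h) := by
      intro y z hyz
      induction hyz with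
      | refl => exact Or.inl Relation.ReflTransGen.refl
      | tail _ h2 ih =>
        rcases ih with ih | ih
        · rcases hH _ _ h2.1 with h3 | ⟨rfl, rfl⟩ | ⟨rfl, rfl⟩
          · exact Or.inl (ih.tail ⟨h3, h2.2⟩)
          · exact Or.inr h2.2
          · exact Or.inr ⟨h2.2.2, h2.2.1⟩
        · exact Or.inr ih
    have huv : u ∈ h ∧ v ∈ h := by
      by_contra hcon
      apply hj
      intro y hy z hz
      rcases key y z (hchain y hy z hz) with h1 | h1
      · exact h1
      · exact absurd h1 hcon
    refine ⟨huv.1, huv.2, fun y hy => ?_⟩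
    have key2 : ∀ y, Relation.ReflTransGen (rel H h) y u →
        Relation.ReflTransGen (rel T h) y u ∨ Relation.ReflTransGen (rel T h) y v := by
      intro y hyu
      induction hyu using Relation.ReflTransGen.head_induction_on with
      | refl => exact Or.inl Relation.ReflTransGen.refl
      | head hac _ ih =>
        rcases hH _ _ hac.1 with h3 | ⟨rfl, rfl⟩ | ⟨rfl, rfl⟩
        · rcases ih with ih | ih
          · exact Or.inl (Relation.ReflTransGen.head ⟨h3, hac.2⟩ ih)
          · exact Or.inr (Relation.ReflTransGen.head ⟨h3, hac.2⟩ ih)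
        · exact Or.inl Relation.ReflTransGen.refl
        · exact Or.inr Relation.ReflTransGen.refl
    exact key2 y (hchain y hy u huv.1)

end Pool.Agent.X239.PM
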