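import Pool.Agent.X239.PM.Main2
import Pool.Agent.X239.PM.Graph

set_option autoImplicit false

/-! Poonen's strict inequality for families with two-element tips; final forms. -/

namespace Pool.Agent.X239.PM

open Finset SimpleGraph

variable {α : Type*} [DecidableEq α]

theorem gen_eq {A G : Finset (Finset α)} (hne : A.Nonempty) (hU : ∀ X ∈ A, ∀ Y ∈ A, X ∪ Y ∈ A)
    (hGA : G ⊆ A) (hgen : ∀ S ∈ A, ∀ i ∈ S, ∃ g ∈ G, i ∈ g ∧ g ⊆ S) : gen G = insert ∅ A := by
  ext S
  rw [mem_insert]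
  constructor
  · intro hS
    unfold gen at hS
    obtain ⟨Q, hQ, rfl⟩ := mem_image.1 hS
    rw [mem_powerset] at hQ
    have hQA := hQ.trans hGA
    clear hQ hS
    induction Q using Finset.induction_on with
    | empty => left; simp
    | insert a s ha ih =>
      rw [Finset.sup_insert]
      right
      have haA := hQA (mem_insert_self _ _)
      rcases ih fun t ht => hQA (mem_insert_of_mem ht) with h | h
      · rw [h]
        simpa using haA
      · exact hU _ haA _ h
  · rintro (rfl | hS)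
    · exact empty_mem_gen G
    · exact mem_gen.2 (hgen S hS)

theorem fr_insert (A : Finset (Finset α)) (y : α) : fr (insert ∅ A) y = fr A y := by
  unfold fr
  congr 1
  ext S
  rw [mem_filter, mem_filter, mem_insert]
  constructor
  · rintro ⟨rfl | h, h2⟩
    · exact absurd h2 (by simp)
    · exact ⟨h, h2⟩
  · rintro ⟨h, h2⟩
    exact ⟨Or.inr h, h2⟩

theorem weighted {G : Finset (Finset α)} (hne : ∀ g ∈ G, g.Nonempty) (hT : Tip G)
    (w : Finset α → ℕ) (hpos : ∀ Y ∈ gen G, 0 < w Y)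
    (hmono : ∀ Y ∈ gen G, ∀ Z ∈ gen G, Y ⊆ Z → w Y ≤ w Z) :
    (∃ x, ∑ Y ∈ gen G, w Y < 2 * ∑ Y ∈ (gen G).filter (fun Y => x ∈ Y), w Y) ∨
      (Blocks (gen G) ∧ ∀ Y ∈ gen G, w Y = w ∅) := by
  by_cases h : ∃ x, ∑ Y ∈ gen G, w Y < 2 * ∑ Y ∈ (gen G).filter (fun Y => x ∈ Y), w Y
  · exact Or.inl h
  · right
    push Not at h
    exact main2 G.card G rfl hne hT w hpos hmono h

theorem strict2 {A G : Finset (Finset α)} (hne : A.Nonempty) (hU : ∀ X ∈ A, ∀ Y ∈ A, X ∪ Y ∈ A)
    (hGA : G ⊆ A) (hgen : ∀ S ∈ A, ∀ i ∈ S, ∃ g ∈ G, i ∈ g ∧ g ⊆ S)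
    (hGne : ∀ g ∈ G, g.Nonempty) (hT : Tip G) :
    (∃ y ∈ A.sup id, A.card < 2 * (A.filter (fun X => y ∈ X)).card) ∨ (∅ ∈ A ∧ Blocks A) := by
  have hin : ∀ y, A.card < 2 * fr A y →
      ∃ y ∈ A.sup id, A.card < 2 * (A.filter (fun X => y ∈ X)).card := by
    intro y hy
    refine ⟨y, ?_, hy⟩
    have hpos : 0 < fr A y := by omega
    obtain ⟨S, hS⟩ := Finset.card_pos.1 hpos
    rw [mem_filter] at hS
    rw [Finset.mem_sup]
    exact ⟨S, hS⟩
  have hge := gen_eq hne hU hGA hgen
  have hcardle : A.card ≤ (gen G).card := by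
    rw [hge]
    exact card_le_card (subset_insert _ _)
  rcases weighted hGne hT (fun _ => 1) (fun _ _ => Nat.one_pos) (fun _ _ _ _ _ => le_refl _) with
    ⟨x, hx⟩ | ⟨hb, _⟩
  · left
    apply hin x
    simp only [Finset.sum_const, smul_eq_mul, mul_one] at hx
    have h1 : ((gen G).filter (fun Y => x ∈ Y)).card = fr A x := by
      rw [hge]
      exact fr_insert A x
    rw [h1] at hx
    omega
  · rw [hge] at hb
    by_cases h0 : ∅ ∈ A
    · right
      rw [insert_eq_of_mem h0] at hb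
      exact ⟨h0, hb⟩
    · left
      obtain ⟨S, hS⟩ := hne
      have hSne : S.Nonempty := by
        rw [Finset.nonempty_iff_ne_empty]
        rintro rfl
        exact h0 hS
      have hU' : ∀ X ∈ insert ∅ A, ∀ Y ∈ insert ∅ A, X ∪ Y ∈ insert ∅ A := by
        rw [← hge]
        exact fun X hX Y hY => union_mem_gen hX hY
      obtain ⟨y, hy⟩ := half_of_blocks hU' hb ⟨S, mem_insert_of_mem hS, hSne⟩
      apply hin y
      rw [fr_insert, card_insert_of_notMem h0] at hy
      omega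

theorem graph_strict {A : Finset (Finset α)} (hne : A.Nonempty)
    (hU : ∀ X ∈ A, ∀ Y ∈ A, X ∪ Y ∈ A) (H : SimpleGraph α)
    (hH : H.IsTree ∨ ∃ e ∈ H.edgeSet, (H.deleteEdges {e}).IsTree)
    (hgen : ∀ S ∈ A, ∀ i ∈ S, ∃ g ∈ A, i ∈ g ∧ g ⊆ S ∧ (H.induce (g : Set α)).Connected) :
    (∃ y ∈ A.sup id, A.card < 2 * (A.filter (fun X => y ∈ X)).card) ∨ (∅ ∈ A ∧ Blocks A) := by
  classical
  set G : Finset (Finset α) := A.filter (fun g : Finset α => (H.induce (g : Set α)).Connected) with hG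
  have hGne : ∀ g ∈ G, g.Nonempty := by
    intro g hg
    obtain ⟨x⟩ := (mem_filter.1 hg).2.nonempty
    exact ⟨x.1, x.2⟩
  apply strict2 hne hU (G := G) (filter_subset _ _) _ hGne
  · rcases hH with hT | ⟨e, he, hT⟩
    · by_cases hα : Nonempty α
      · obtain ⟨u⟩ := hα
        apply tip_of_good hT u u hGne
        intro g hg
        exact good_of_connected (T := H) (H := H) (u := u) (v := u) (fun a b h => Or.inl h)
          (mem_filter.1 hg).2.preconnected
      · intro G' hG' hG'ne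
        obtain ⟨g, hg⟩ := hG'ne
        obtain ⟨x, _⟩ := hGne g (hG' hg)
        exact absurd ⟨x⟩ hα
    · induction e using Sym2.inductionOn with
      | _ u v =>
      apply tip_of_good hT u v hGne
      intro g hg
      apply good_of_connected (H := H) _ (mem_filter.1 hg).2.preconnected
      intro a b hab
      by_cases h : s(a, b) = s(u, v)
      · right
        rw [Sym2.eq_iff] at h
        exact h
      · left
        rw [SimpleGraph.deleteEdges_adj]
        exact ⟨hab, h⟩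
  · intro S hS i hi
    obtain ⟨g, hg, h1, h2, h3⟩ := hgen S hS i hi
    exact ⟨g, mem_filter.2 ⟨hg, h3⟩, h1, h2⟩

end Pool.Agent.X239.PM
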