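import Pool.Agent.X239.PM.Basic

set_option autoImplicit false

/-! Union-closed families whose lattice has modular atoms in the upper intervals. -/

namespace Pool.Agent.X239.PM

open Finset OrderDual

variable {α : Type*} [DecidableEq α]

/-- every `b ≠ ⊥` has a lower cover `m` that is left modular in the interval `[⊥, b]` -/
def LMod (L : Type*) [Lattice L] [BoundedOrder L] : Prop :=
  ∀ b : L, b ≠ ⊥ → ∃ m : L, m ⋖ b ∧ ∀ x y : L, x ≤ y → y ≤ b → x ⊔ (m ⊓ y) = (x ⊔ m) ⊓ y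

theorem cond_of_lattice {L : Type*} [Lattice L] [BoundedOrder L] (hL : LMod L)
    {A : Finset (Finset α)} (hU : ∀ X ∈ A, ∀ Y ∈ A, X ∪ Y ∈ A) (h0 : ∅ ∈ A)
    (e : {X : Finset α // X ∈ A} ≃o Lᵒᵈ) : Cond A := by
  have hle : ∀ X Y : {X : Finset α // X ∈ A}, ofDual (e Y) ≤ ofDual (e X) ↔ X.1 ⊆ Y.1 := by
    intro X Y
    have := e.le_iff_le (x := X) (y := Y)
    exact this
  have hsymm : ∀ l : L, ofDual (e (e.symm (toDual l))) = l := by
    intro l
    rw [e.apply_symm_apply]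
    rfl
  intro C hC hCtop
  set b := ofDual (e ⟨C, hC⟩) with hb
  have hbne : b ≠ ⊥ := by
    intro h
    apply hCtop
    have hs : A.sup id ∈ A := sup_mem_of hU h0 (Subset.refl _)
    apply le_antisymm (Finset.le_sup (f := id) hC)
    have h1 := (hle ⟨A.sup id, hs⟩ ⟨C, hC⟩).1 (by rw [← hb, h]; exact bot_le)
    exact h1
  obtain ⟨m, hmb, hmod⟩ := hL b hbne
  set B := e.symm (toDual m) with hBdef
  have hBm : ofDual (e B) = m := hsymm m
  refine ⟨B.1, B.2, ⟨?_, ?_⟩, ?_⟩
  · exact (hle ⟨C, hC⟩ B).1 (by rw [hBm, ← hb]; exact hmb.le)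
  · intro h
    have := (hle B ⟨C, hC⟩).2 h
    rw [hBm, ← hb] at this
    exact absurd (lt_of_lt_of_le hmb.lt this) (lt_irrefl _)
  · intro M hM hCM hBM Y hY Z hZ hCY hCZ hYM hZM h
    have key : ∀ (W : Finset α) (hW : W ∈ A), C ⊆ W → W ⊆ M →
        ofDual (e ⟨W, hW⟩) = ofDual (e ⟨M, hM⟩) ⊔ (m ⊓ ofDual (e ⟨W, hW⟩)) ∧
        (e.symm (toDual (m ⊓ ofDual (e ⟨W, hW⟩)))).1 = W ∪ B.1 := by
      intro W hW hCW hWM
      have hjb : ofDual (e ⟨M, hM⟩) ≤ b := (hle ⟨C, hC⟩ ⟨M, hM⟩).2 hCM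
      have hwb : ofDual (e ⟨W, hW⟩) ≤ b := (hle ⟨C, hC⟩ ⟨W, hW⟩).2 hCW
      have hjw : ofDual (e ⟨M, hM⟩) ≤ ofDual (e ⟨W, hW⟩) := (hle ⟨W, hW⟩ ⟨M, hM⟩).2 hWM
      have hjm : ¬ ofDual (e ⟨M, hM⟩) ≤ m := by
        intro hc
        apply hBM
        exact (hle B ⟨M, hM⟩).1 (by rw [hBm]; exact hc)
      constructor
      · rw [hmod _ _ hjw hwb]
        have hjmb : ofDual (e ⟨M, hM⟩) ⊔ m = b := by
          have h1 : m < ofDual (e ⟨M, hM⟩) ⊔ m := by
            refine lt_of_le_of_ne le_sup_right fun h => hjm ?_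
            exact le_sup_left.trans h.symm.le
          rcases lt_or_eq_of_le (sup_le hjb hmb.le) with h2 | h2
          · exact absurd h2 (hmb.2 h1)
          · exact h2
        rw [hjmb]
        exact (inf_eq_right.2 hwb).symm
      · apply Finset.Subset.antisymm
        · have hWB : W ∪ B.1 ∈ A := hU W hW B.1 B.2
          have := (hle (e.symm (toDual (m ⊓ ofDual (e ⟨W, hW⟩)))) ⟨W ∪ B.1, hWB⟩).1 (by
            rw [hsymm]
            apply le_inf
            · have := (hle B ⟨W ∪ B.1, hWB⟩).2 subset_union_right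
              rwa [hBm] at this
            · exact (hle ⟨W, hW⟩ ⟨W ∪ B.1, hWB⟩).2 subset_union_left)
          exact this
        · apply Finset.union_subset
          · exact (hle ⟨W, hW⟩ (e.symm (toDual (m ⊓ ofDual (e ⟨W, hW⟩))))).1 (by
              rw [hsymm]; exact inf_le_right)
          · exact (hle B (e.symm (toDual (m ⊓ ofDual (e ⟨W, hW⟩))))).1 (by
              rw [hsymm, hBm]; exact inf_le_left)
    obtain ⟨y1, y2⟩ := key Y hY hCY hYM
    obtain ⟨z1, z2⟩ := key Z hZ hCZ hZM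
    rw [h, ← z2] at y2
    have h3 := e.symm.injective (Subtype.ext y2)
    have h4 : m ⊓ ofDual (e ⟨Y, hY⟩) = m ⊓ ofDual (e ⟨Z, hZ⟩) := toDual.injective h3
    have h5 : ofDual (e ⟨Y, hY⟩) = ofDual (e ⟨Z, hZ⟩) := by rw [y1, z1, h4]
    have h6 := e.injective (ofDual.injective h5)
    exact congrArg Subtype.val h6

/-- lower semimodular lattices -/
theorem lmod_of_lower {L : Type*} [Lattice L] [BoundedOrder L] [Finite L]
    [IsLowerModularLattice L] : LMod L := by
  intro b hb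
  obtain ⟨m, _, hm⟩ := exists_le_covBy_of_lt (bot_lt_iff_ne_bot.2 hb)
  refine ⟨m, hm, fun x y hxy hyb => ?_⟩
  by_cases hxm : x ≤ m
  · rw [sup_eq_right.2 (le_inf hxm hxy), sup_eq_right.2 hxm]
  · have hsup : ∀ z : L, z ≤ b → ¬ z ≤ m → m ⊔ z = b := by
      intro z hzb hzm
      have h1 : m < m ⊔ z := by
        refine lt_of_le_of_ne le_sup_left fun h => hzm ?_
        exact le_sup_right.trans h.symm.le
      rcases lt_or_eq_of_le (sup_le hm.le hzb) with h2 | h2
      · exact absurd h2 (hm.2 h1)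
      · exact h2
    rw [sup_comm x m, hsup x (hxy.trans hyb) hxm, inf_eq_right.2 hyb]
    have hym : ¬ y ≤ m := fun h => hxm (hxy.trans h)
    have hcov : m ⊓ y ⋖ y := by
      apply IsLowerModularLattice.inf_covBy_of_covBy_sup
      rw [hsup y hyb hym]
      exact hm
    have h3 : m ⊓ y < x ⊔ (m ⊓ y) := by
      refine lt_of_le_of_ne le_sup_right fun h => hxm ?_
      exact (le_sup_left.trans h.symm.le).trans inf_le_left
    rcases lt_or_eq_of_le (sup_le hxy (inf_le_right : m ⊓ y ≤ y)) with h2 | h2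
    · exact absurd h2 (hcov.2 h3)
    · exact h2

/-- lattices with a maximal chain of left modular elements (for instance supersolvable lattices) -/
theorem lmod_of_chain {L : Type*} [Lattice L] [BoundedOrder L] [Finite L] (s : Set L)
    (hs : IsMaxChain (· ≤ ·) s)
    (hm : ∀ m ∈ s, ∀ x y : L, x ≤ y → x ⊔ (m ⊓ y) = (x ⊔ m) ⊓ y) : LMod L := by
  intro b hb
  have htop : (⊤ : L) ∈ s := hs.top_mem
  have hbot : (⊥ : L) ∈ s := hs.bot_mem
  obtain ⟨t, ht⟩ := (Set.toFinite {c | c ∈ s ∧ b ≤ c}).exists_minimal ⟨⊤, htop, le_top⟩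
  obtain ⟨p, hp⟩ := (Set.toFinite {c | c ∈ s ∧ ¬ b ≤ c}).exists_maximal
    ⟨⊥, hbot, fun h => hb (le_bot_iff.1 h)⟩
  have hts : t ∈ s := ht.1.1
  have hbt : b ≤ t := ht.1.2
  have hps : p ∈ s := hp.1.1
  have hbp : ¬ b ≤ p := hp.1.2
  have htmin : ∀ c ∈ s, b ≤ c → t ≤ c := by
    intro c hc hbc
    rcases hs.1.total hts hc with h | h
    · exact h
    · exact ht.2 ⟨hc, hbc⟩ h
  have hpmax : ∀ c ∈ s, ¬ b ≤ c → c ≤ p := by
    intro c hc hbc
    rcases hs.1.total hps hc with h | h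
    · exact hp.2 ⟨hc, hbc⟩ h
    · exact h
  have hpt : p ⋖ t := by
    constructor
    · rcases hs.1.total hps hts with h | h
      · exact lt_of_le_of_ne h fun h' => hbp (h' ▸ hbt)
      · exact absurd (hbt.trans h) hbp
    · intro c hpc hct
      have hch : IsChain (· ≤ ·) (insert c s) := by
        apply hs.1.insert
        intro d hd _
        by_cases hbd : b ≤ d
        · exact Or.inl (hct.le.trans (htmin d hd hbd))
        · exact Or.inr ((hpmax d hd hbd).trans hpc.le)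
      have hcs : c ∈ s := by
        rw [hs.2 hch (Set.subset_insert _ _)]
        exact Set.mem_insert _ _
      by_cases hbc : b ≤ c
      · exact absurd (lt_of_lt_of_le hct (htmin c hcs hbc)) (lt_irrefl _)
      · exact absurd (lt_of_lt_of_le hpc (hpmax c hcs hbc)) (lt_irrefl _)
  refine ⟨p ⊓ b, ⟨?_, ?_⟩, ?_⟩
  · refine lt_of_le_of_ne inf_le_right fun h => hbp ?_
    rw [← h]
    exact inf_le_left
  · intro c hmc hcb
    have h1 : p ≤ c ⊔ p := le_sup_right
    have h2 : c ⊔ p ≤ t := sup_le (hcb.le.trans hbt) hpt.le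
    rcases eq_or_lt_of_le h1 with h | h
    · have : c ≤ p ⊓ b := le_inf (le_sup_left.trans h.symm.le) hcb.le
      exact absurd (lt_of_lt_of_le hmc this) (lt_irrefl _)
    · rcases eq_or_lt_of_le h2 with h3 | h3
      · have h4 := hm p hps c b hcb.le
        rw [h3, sup_eq_left.2 hmc.le, inf_eq_right.2 hbt] at h4
        exact absurd hcb (by rw [h4]; exact lt_irrefl _)
      · exact absurd h3 (hpt.2 h)
  · intro x y hxy hyb
    have h1 : (p ⊓ b) ⊓ y = p ⊓ y := by
      rw [inf_assoc, inf_eq_right.2 hyb]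
    rw [h1, hm p hps x y hxy, hm p hps x b (hxy.trans hyb), inf_assoc, inf_eq_right.2 hyb]

theorem family {L : Type*} [Lattice L] [BoundedOrder L] (hL : LMod L)
    {A : Finset (Finset α)} (hne : A.Nonempty) (hU : ∀ X ∈ A, ∀ Y ∈ A, X ∪ Y ∈ A)
    (e : {X : Finset α // X ∈ insert ∅ A} ≃o Lᵒᵈ) :
    (∃ y ∈ A.sup id, A.card < 2 * (A.filter (fun X => y ∈ X)).card) ∨ (∅ ∈ A ∧ Blocks A) := by
  have hin : ∀ y, A.card < 2 * fr A y →
      ∃ y ∈ A.sup id, A.card < 2 * (A.filter (fun X => y ∈ X)).card := by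
    intro y hy
    refine ⟨y, ?_, hy⟩
    have hpos : 0 < fr A y := by omega
    obtain ⟨S, hS⟩ := Finset.card_pos.1 hpos
    rw [mem_filter] at hS
    rw [Finset.mem_sup]
    exact ⟨S, hS⟩
  set A' := insert ∅ A with hA'
  have hU' : ∀ X ∈ A', ∀ Y ∈ A', X ∪ Y ∈ A' := by
    intro X hX Y hY
    rcases mem_insert.1 hX with rfl | hX
    · rwa [Finset.empty_union]
    · rcases mem_insert.1 hY with rfl | hY
      · rw [Finset.union_empty]
        exact mem_insert_of_mem hX
      · exact mem_insert_of_mem (hU X hX Y hY)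
  have h0' : ∅ ∈ A' := mem_insert_self _ _
  have hfr : ∀ y, fr A' y = fr A y := by
    intro y
    unfold fr
    congr 1
    ext S
    rw [mem_filter, mem_filter, hA', mem_insert]
    constructor
    · rintro ⟨rfl | h, h2⟩
      · exact absurd h2 (by simp)
      · exact ⟨h, h2⟩
    · rintro ⟨h, h2⟩
      exact ⟨Or.inr h, h2⟩
  have hcardle : A.card ≤ A'.card := card_le_card (subset_insert _ _)
  rcases main A'.card A' rfl hU' h0' (cond_of_lattice hL hU' h0' e) with ⟨y, hy⟩ | hb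
  · left
    apply hin y
    rw [hfr] at hy
    omega
  · by_cases h0 : ∅ ∈ A
    · right
      refine ⟨h0, ?_⟩
      rwa [hA', insert_eq_of_mem h0] at hb
    · left
      obtain ⟨S, hS⟩ := hne
      have hSne : S.Nonempty := by
        rw [Finset.nonempty_iff_ne_empty]
        rintro rfl
        exact h0 hS
      obtain ⟨y, hy⟩ := half_of_blocks hU' hb ⟨S, mem_insert_of_mem hS, hSne⟩
      apply hin y
      rw [hfr, hA', card_insert_of_notMem h0] at hy
      omega

end Pool.Agent.X239.PM
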