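import Pool.Agent.X239.PM.Two

set_option autoImplicit false

/-! The weighted induction for families with two-element tips. -/

namespace Pool.Agent.X239.PM

open Finset

variable {α : Type*} [DecidableEq α]

theorem union_cancel {g Y Z : Finset α} (hY : Disjoint g Y) (hZ : Disjoint g Z)
    (h : Y ∪ g = Z ∪ g) : Y = Z := by
  ext i
  have := Finset.ext_iff.1 h i
  rw [mem_union, mem_union] at this
  constructor
  · intro hi
    rcases this.1 (Or.inl hi) with h1 | h1
    · exact h1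
    · exact absurd hi (Finset.disjoint_left.1 hY h1)
  · intro hi
    rcases this.2 (Or.inl hi) with h1 | h1
    · exact h1
    · exact absurd hi (Finset.disjoint_left.1 hZ h1)

theorem blocks_empty : Blocks (gen (∅ : Finset (Finset α))) := by
  refine ⟨∅, by simp, by simp, fun S => ?_⟩
  rw [mem_gen]
  constructor
  · intro h
    refine ⟨∅, Subset.refl _, ?_⟩
    rw [Finset.sup_empty]
    by_contra hS
    obtain ⟨i, hi⟩ := Finset.nonempty_iff_ne_empty.2 hS
    obtain ⟨g, hg, _⟩ := h i hi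
    simp at hg
  · rintro ⟨Q, hQ, h⟩ i hi
    rw [Finset.subset_empty.1 hQ, Finset.sup_empty] at h
    rw [h] at hi
    simp at hi

theorem main2 : ∀ (n : ℕ) (G : Finset (Finset α)), G.card = n → (∀ g ∈ G, g.Nonempty) → Tip G →
    ∀ w : Finset α → ℕ, (∀ Y ∈ gen G, 0 < w Y) →
    (∀ Y ∈ gen G, ∀ Z ∈ gen G, Y ⊆ Z → w Y ≤ w Z) →
    (∀ x, 2 * F (gen G) w x ≤ ∑ Y ∈ gen G, w Y) → Blocks (gen G) ∧ ∀ Y ∈ gen G, w Y = w ∅ := by
  intro n
  induction n using Nat.strong_induction_on with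
  | _ n ih =>
  intro G hn hne hT w hpos hmono hl
  rcases G.eq_empty_or_nonempty with hGe | hG
  · subst hGe
    refine ⟨blocks_empty, fun Y hY => ?_⟩
    congr 1
    by_contra hS
    obtain ⟨i, hi⟩ := Finset.nonempty_iff_ne_empty.2 hS
    obtain ⟨g, hg, _⟩ := mem_gen.1 hY i hi
    simp at hg
  obtain ⟨g, hg, a, ha, b, hb, htip⟩ := hT G (Subset.refl _) hG
  set A := gen G with hA
  have hU : ∀ X ∈ A, ∀ Y ∈ A, X ∪ Y ∈ A := fun X hX Y hY => union_mem_gen hX hY
  have h0 : ∅ ∈ A := empty_mem_gen G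
  have hgA : g ∈ A := self_mem_gen hg
  have hdis : ∀ Y ∈ A, a ∉ Y → b ∉ Y → Disjoint g Y := by
    intro Y hY hay hby
    rw [Finset.disjoint_right]
    intro i hi hig
    obtain ⟨h, hh, hih, hhY⟩ := mem_gen.1 hY i hi
    rcases htip h hh ⟨i, mem_inter.2 ⟨hig, hih⟩⟩ with h1 | h1
    · exact hay (hhY h1)
    · exact hby (hhY h1)
  have hie := incl_excl A w a b
  have hla := hl a
  have hlb := hl b
  have hS : ∑ Y ∈ A.filter (fun Y => a ∈ Y ∧ b ∈ Y), w Y ≤
      ∑ Y ∈ A.filter (fun Y => a ∉ Y ∧ b ∉ Y), w Y := by omega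
  obtain ⟨honto, heqw⟩ := inj_sum_eq (s := A.filter (fun Y => a ∉ Y ∧ b ∉ Y))
    (t := A.filter (fun Y => a ∈ Y ∧ b ∈ Y)) (w := w) (fun Y => Y ∪ g)
    (by
      intro Y hY
      rw [mem_filter] at hY ⊢
      exact ⟨hU Y hY.1 g hgA, mem_union_right _ ha, mem_union_right _ hb⟩)
    (by
      intro Y hY Z hZ h
      rw [mem_coe, mem_filter] at hY hZ
      exact union_cancel (hdis Y hY.1 hY.2.1 hY.2.2) (hdis Z hZ.1 hZ.2.1 hZ.2.2) h)
    (by
      intro Y hY
      rw [mem_filter] at hY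
      exact hmono Y hY.1 _ (hU Y hY.1 g hgA) subset_union_left)
    (by
      intro Y hY
      exact hpos Y (mem_filter.1 hY).1) hS
  have hrem : ∀ Y ∈ A, Y \ g ∈ A := by
    intro Y hY
    have hm : Y ∪ g ∈ A.filter (fun Y => a ∈ Y ∧ b ∈ Y) :=
      mem_filter.2 ⟨hU Y hY g hgA, mem_union_right _ ha, mem_union_right _ hb⟩
    obtain ⟨Z, hZ, h⟩ := honto _ hm
    rw [mem_filter] at hZ
    have hZd := hdis Z hZ.1 hZ.2.1 hZ.2.2
    have h' : Z ∪ g = Y ∪ g := h
    have : Z = Y \ g := by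
      ext i
      rw [mem_sdiff]
      have h2 := Finset.ext_iff.1 h' i
      rw [mem_union, mem_union] at h2
      constructor
      · intro hi
        have hig : i ∉ g := fun hig => Finset.disjoint_left.1 hZd hig hi
        rcases h2.1 (Or.inl hi) with h3 | h3
        · exact ⟨h3, hig⟩
        · exact absurd h3 hig
      · rintro ⟨hi, hig⟩
        rcases h2.2 (Or.inl hi) with h3 | h3
        · exact h3
        · exact absurd h3 hig
    rw [← this]
    exact hZ.1
  have hwg : w g = w ∅ := by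
    have := heqw ∅ (mem_filter.2 ⟨h0, by simp, by simp⟩)
    simpa using this
  -- the members disjoint from `g`
  set A0 := A.filter (fun Y => Disjoint g Y) with hA0
  have hA0gen : gen (G.filter (fun h => Disjoint g h)) = A0 := gen_disj G g
  have hm0 : ∀ Y, Y ∈ A0 ↔ Y ∈ A ∧ Disjoint g Y := fun Y => by rw [hA0, mem_filter]
  have h00 : ∅ ∈ A0 := (hm0 _).2 ⟨h0, Finset.disjoint_empty_right _⟩
  have hsd : ∀ Y ∈ A, Y \ g ∈ A0 := fun Y hY => (hm0 _).2 ⟨hrem Y hY, Finset.disjoint_sdiff⟩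
  have hsdiff : ∀ Y1, Disjoint g Y1 → Y1 \ g = Y1 := fun Y1 h =>
    Finset.sdiff_eq_self_of_disjoint h.symm
  have hfmap : ∀ Y0 ∈ A0, ∀ Y1 ∈ A0, Y0 ⊆ Y1 → ∀ Y ∈ A.filter (fun Y => Y \ g = Y0),
      Y ∪ Y1 ∈ A.filter (fun Y => Y \ g = Y1) := by
    intro Y0 hY0 Y1 hY1 h01 Y hY
    rw [mem_filter] at hY ⊢
    refine ⟨hU Y hY.1 Y1 ((hm0 _).1 hY1).1, ?_⟩
    rw [Finset.union_sdiff_distrib, hY.2, hsdiff Y1 ((hm0 _).1 hY1).2]
    exact Finset.union_eq_right.2 h01
  have hfinj : ∀ Y0 ∈ A0, ∀ Y1 ∈ A0, Set.InjOn (fun Y => Y ∪ Y1)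
      (A.filter (fun Y => Y \ g = Y0) : Finset (Finset α)) := by
    intro Y0 hY0 Y1 hY1 Y hY Z hZ h
    rw [mem_coe, mem_filter] at hY hZ
    have h' : Y ∪ Y1 = Z ∪ Y1 := h
    have hd := ((hm0 _).1 hY1).2
    ext i
    by_cases hi : i ∈ g
    · have h2 := Finset.ext_iff.1 h' i
      rw [mem_union, mem_union] at h2
      have h3 : i ∉ Y1 := Finset.disjoint_left.1 hd hi
      tauto
    · have h2 : i ∈ Y \ g ↔ i ∈ Z \ g := by rw [hY.2, hZ.2]
      rw [mem_sdiff, mem_sdiff] at h2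
      tauto
  have hfw : ∀ Y0 ∈ A0, ∀ Y1 ∈ A0, ∀ Y ∈ A.filter (fun Y => Y \ g = Y0), w Y ≤ w (Y ∪ Y1) := by
    intro Y0 _ Y1 hY1 Y hY
    rw [mem_filter] at hY
    exact hmono Y hY.1 _ (hU Y hY.1 Y1 ((hm0 _).1 hY1).1) subset_union_left
  set w0 : Finset α → ℕ := fun Y1 => ∑ Y ∈ A.filter (fun Y => Y \ g = Y1), w Y with hw0
  have htot : ∑ Y1 ∈ A0, w0 Y1 = ∑ Y ∈ A, w Y :=
    Finset.sum_fiberwise_of_maps_to (g := fun Y => Y \ g) hsd w
  have hF0 : ∀ x, F A0 w0 x ≤ F A w x := by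
    intro x
    unfold F
    have h1 : ∑ Y1 ∈ A0.filter (fun Y => x ∈ Y), w0 Y1 =
        ∑ Y1 ∈ A0.filter (fun Y => x ∈ Y),
          ∑ Y ∈ (A.filter (fun Y => x ∈ Y \ g)).filter (fun Y => Y \ g = Y1), w Y := by
      apply Finset.sum_congr rfl
      intro Y1 hY1
      rw [mem_filter] at hY1
      rw [hw0]
      apply Finset.sum_congr _ (fun _ _ => rfl)
      ext Y
      rw [mem_filter, mem_filter, mem_filter]
      constructor
      · rintro ⟨h2, h3⟩
        exact ⟨⟨h2, h3 ▸ hY1.2⟩, h3⟩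
      · rintro ⟨⟨h2, _⟩, h3⟩
        exact ⟨h2, h3⟩
    rw [h1, Finset.sum_fiberwise_of_maps_to (g := fun Y => Y \ g) (by
      intro Y hY
      rw [mem_filter] at hY ⊢
      exact ⟨hsd Y hY.1, hY.2⟩) w]
    apply Finset.sum_le_sum_of_subset
    intro Y hY
    rw [mem_filter] at hY ⊢
    exact ⟨hY.1, (mem_sdiff.1 hY.2).1⟩
  have hG0 : (G.filter (fun h => Disjoint g h)).card < n := by
    rw [← hn]
    apply Finset.card_lt_card
    rw [Finset.filter_ssubset]
    refine ⟨g, hg, fun h => ?_⟩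
    exact Finset.disjoint_left.1 h ha ha
  obtain ⟨b0, hc0⟩ : Blocks A0 ∧ ∀ Y ∈ A0, w0 Y = w0 ∅ := by
    have h := ih _ hG0 (G.filter (fun h => Disjoint g h)) rfl
      (fun k hk => hne k (mem_filter.1 hk).1) (hT.mono (filter_subset _ _)) w0
    rw [hA0gen] at h
    apply h
    · intro Y hY
      have hself : Y ∈ A.filter (fun Z => Z \ g = Y) :=
        mem_filter.2 ⟨((hm0 _).1 hY).1, hsdiff Y ((hm0 _).1 hY).2⟩
      exact lt_of_lt_of_le (hpos Y ((hm0 _).1 hY).1)
        (Finset.single_le_sum (f := w) (fun _ _ => Nat.zero_le _) hself)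
    · intro Y hY Z hZ hYZ
      exact inj_sum (fun X => X ∪ Z) (hfmap Y hY Z hZ hYZ) (hfinj Y hY Z hZ) (hfw Y hY Z hZ)
    · intro x
      rw [htot]
      exact (Nat.mul_le_mul_left 2 (hF0 x)).trans (hl x)
  have hprod : ∀ Y1 ∈ A0, (∀ Z ∈ A.filter (fun Y => Y \ g = Y1),
      ∃ Y ∈ A.filter (fun Y => Y \ g = ∅), Y ∪ Y1 = Z) ∧
      ∀ Y ∈ A.filter (fun Y => Y \ g = ∅), w (Y ∪ Y1) = w Y := by
    intro Y1 hY1
    apply inj_sum_eq (fun Y => Y ∪ Y1) (hfmap ∅ h00 Y1 hY1 (empty_subset _)) (hfinj ∅ h00 Y1 hY1)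
      (hfw ∅ h00 Y1 hY1) (fun Y hY => hpos Y (mem_filter.1 hY).1)
    have := hc0 Y1 hY1
    rw [hw0] at this
    exact this.le
  have hpart : ∀ Y ∈ A, Y ∩ g ∈ A ∧ w Y = w (Y ∩ g) := by
    intro Y hY
    obtain ⟨h1, h2⟩ := hprod (Y \ g) (hsd Y hY)
    obtain ⟨Y', hY', h3⟩ := h1 Y (mem_filter.2 ⟨hY, rfl⟩)
    have hY'2 := mem_filter.1 hY'
    have hsub : Y' ⊆ g := Finset.sdiff_eq_empty_iff_subset.1 hY'2.2
    have heq : Y ∩ g = Y' := by
      ext i
      rw [mem_inter]
      constructor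
      · rintro ⟨hi, hig⟩
        rw [← h3] at hi
        rcases mem_union.1 hi with h4 | h4
        · exact h4
        · exact absurd hig (mem_sdiff.1 h4).2
      · intro hi
        refine ⟨?_, hsub hi⟩
        rw [← h3]
        exact mem_union_left _ hi
    rw [heq]
    refine ⟨hY'2.1, ?_⟩
    have h4 := h2 Y' hY'
    rw [h3] at h4
    exact h4
  by_cases hall : ∀ h ∈ G, h ⊆ g
  · -- all members are contained in `g`
    have hsub : ∀ Y ∈ A, Y ⊆ g := by
      intro Y hY i hi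
      obtain ⟨h, hh, hih, _⟩ := mem_gen.1 hY i hi
      exact hall h hh hih
    have h00' : ∀ Y ∈ A, a ∉ Y → b ∉ Y → Y = ∅ := by
      intro Y hY hay hby
      have hd := hdis Y hY hay hby
      rw [Finset.eq_empty_iff_forall_notMem]
      intro i hi
      exact Finset.disjoint_left.1 hd (hsub Y hY hi) hi
    have h11' : ∀ Y ∈ A, a ∈ Y → b ∈ Y → Y = g := by
      intro Y hY hay hby
      obtain ⟨Z, hZ, h⟩ := honto Y (mem_filter.2 ⟨hY, hay, hby⟩)
      rw [mem_filter] at hZ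
      have h' : Z ∪ g = Y := h
      rw [h00' Z hZ.1 hZ.2.1 hZ.2.2, Finset.empty_union] at h'
      exact h'.symm
    have hconst : ∀ Y ∈ A, w Y = w ∅ := by
      intro Y hY
      have h1 := hmono ∅ h0 Y hY (empty_subset _)
      have h2 := hmono Y hY g hgA (hsub Y hY)
      omega
    refine ⟨top_case hU h0 hgA ha hb h00' h11' hsub ?_, hconst⟩
    intro x
    have h1 : F A w x = fr A x * w ∅ := by
      unfold F fr
      rw [Finset.sum_congr rfl (fun Y hY => hconst Y (mem_filter.1 hY).1), Finset.sum_const,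
        smul_eq_mul]
    have h2 : ∑ Y ∈ A, w Y = A.card * w ∅ := by
      rw [Finset.sum_congr rfl hconst, Finset.sum_const, smul_eq_mul]
    have h3 := hl x
    rw [h1, h2, ← mul_assoc] at h3
    exact Nat.le_of_mul_le_mul_right h3 (hpos ∅ h0)
  · -- a smaller family inside `g`
    push Not at hall
    obtain ⟨k, hk, hkg⟩ := hall
    set Ag := A.filter (fun Y => Y ⊆ g) with hAg
    have hAggen : gen (G.filter (fun h => h ⊆ g)) = Ag := gen_sub G g
    have hmg : ∀ Y, Y ∈ Ag ↔ Y ∈ A ∧ Y ⊆ g := fun Y => by rw [hAg, mem_filter]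
    have hcount : ∀ p : Finset α → Prop, ∀ _ : DecidablePred p, (∀ Y, p Y ↔ p (Y ∩ g)) →
        ∑ Y ∈ A.filter p, w Y = A0.card * ∑ Y ∈ Ag.filter p, w Y := by
      intro p _ hp
      rw [← Finset.sum_fiberwise_of_maps_to (s := A.filter p) (t := A0) (g := fun Y => Y \ g)
        (fun Y hY => hsd Y (mem_filter.1 hY).1) w]
      rw [Finset.sum_congr rfl (g := fun _ => ∑ Y ∈ Ag.filter p, w Y), Finset.sum_const,
        smul_eq_mul]
      intro Y1 hY1
      have hd1 := ((hm0 _).1 hY1).2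
      obtain ⟨h1, h2⟩ := hprod Y1 hY1
      apply Finset.sum_nbij' (fun Y => Y ∩ g) (fun Y => Y ∪ Y1)
      · intro Y hY
        rw [mem_filter, mem_filter] at hY
        rw [mem_filter, hmg]
        exact ⟨⟨(hpart Y hY.1.1).1, inter_subset_right⟩, (hp Y).1 hY.1.2⟩
      · intro Y hY
        rw [mem_filter, hmg] at hY
        rw [mem_filter, mem_filter]
        have h3 : (Y ∪ Y1) ∩ g = Y := by
          ext i
          rw [mem_inter, mem_union]
          constructor
          · rintro ⟨h4 | h4, h5⟩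
            · exact h4
            · exact absurd h4 (Finset.disjoint_left.1 hd1 h5)
          · intro hi
            exact ⟨Or.inl hi, hY.1.2 hi⟩
        refine ⟨⟨hU Y hY.1.1 Y1 ((hm0 _).1 hY1).1, ?_⟩, ?_⟩
        · rw [hp, h3]
          exact hY.2
        · rw [Finset.union_sdiff_distrib, hsdiff Y1 hd1,
            Finset.sdiff_eq_empty_iff_subset.2 hY.1.2, Finset.empty_union]
      · intro Y hY
        rw [mem_filter, mem_filter] at hY
        rw [← hY.2, Finset.union_comm]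
        exact Finset.sdiff_union_inter Y g
      · intro Y hY
        rw [mem_filter, hmg] at hY
        ext i
        rw [mem_inter, mem_union]
        constructor
        · rintro ⟨h4 | h4, h5⟩
          · exact h4
          · exact absurd h4 (Finset.disjoint_left.1 hd1 h5)
        · intro hi
          exact ⟨Or.inl hi, hY.1.2 hi⟩
      · intro Y hY
        rw [mem_filter, mem_filter] at hY
        exact (hpart Y hY.1.1).2
    have hA0pos : 0 < A0.card := Finset.card_pos.2 ⟨∅, h00⟩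
    have hGg : (G.filter (fun h => h ⊆ g)).card < n := by
      rw [← hn]
      apply Finset.card_lt_card
      rw [Finset.filter_ssubset]
      exact ⟨k, hk, hkg⟩
    obtain ⟨bg, hcg⟩ : Blocks Ag ∧ ∀ Y ∈ Ag, w Y = w ∅ := by
      have h := ih _ hGg (G.filter (fun h => h ⊆ g)) rfl
        (fun k hk => hne k (mem_filter.1 hk).1) (hT.mono (filter_subset _ _)) w
      rw [hAggen] at h
      apply h
      · intro Y hY
        exact hpos Y ((hmg _).1 hY).1
      · intro Y hY Z hZ hYZ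
        exact hmono Y ((hmg _).1 hY).1 Z ((hmg _).1 hZ).1 hYZ
      · intro x
        by_cases hx : x ∈ g
        · have h1 := hcount (fun Y => x ∈ Y) inferInstance (fun Y => by simp [hx])
          have h2 := hcount (fun _ => True) inferInstance (fun Y => Iff.rfl)
          rw [Finset.filter_true_of_mem (fun _ _ => trivial),
            Finset.filter_true_of_mem (fun _ _ => trivial)] at h2
          have h3 := hl x
          unfold F at h3 ⊢
          rw [h1, h2, ← mul_assoc, mul_comm 2, mul_assoc] at h3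
          exact Nat.le_of_mul_le_mul_left h3 hA0pos
        · have h1 : F Ag w x = 0 := by
            unfold F
            rw [Finset.filter_false_of_mem, Finset.sum_empty]
            intro Y hY hxY
            exact hx (((hmg _).1 hY).2 hxY)
          rw [h1]
          omega
    refine ⟨blocks_of_product hU h0 hm0 hmg hrem (fun Y hY => (hpart Y hY).1) b0 bg, ?_⟩
    intro Y hY
    rw [(hpart Y hY).2]
    exact hcg _ ((hmg _).2 ⟨(hpart Y hY).1, inter_subset_right⟩)

end Pool.Agent.X239.PM
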