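import Pool.Agent.X239.PM.Basic

set_option autoImplicit false

/-! Union-closed families whose generators have two-element tips. -/

namespace Pool.Agent.X239.PM

open Finset

variable {α : Type*} [DecidableEq α]

/-- all unions of subfamilies of `G` -/
def gen (G : Finset (Finset α)) : Finset (Finset α) := G.powerset.image (fun Q => Q.sup id)

theorem mem_gen {G : Finset (Finset α)} {S : Finset α} :
    S ∈ gen G ↔ ∀ i ∈ S, ∃ g ∈ G, i ∈ g ∧ g ⊆ S := by
  unfold gen
  rw [mem_image]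
  constructor
  · rintro ⟨Q, hQ, rfl⟩ i hi
    rw [mem_powerset] at hQ
    rw [Finset.mem_sup] at hi
    obtain ⟨g, hg, hig⟩ := hi
    exact ⟨g, hQ hg, hig, Finset.le_sup (f := id) hg⟩
  · intro h
    refine ⟨G.filter (fun g => g ⊆ S), by simp, ?_⟩
    ext i
    rw [Finset.mem_sup]
    constructor
    · rintro ⟨g, hg, hig⟩
      exact (mem_filter.1 hg).2 hig
    · intro hi
      obtain ⟨g, hg, hig, hgS⟩ := h i hi
      exact ⟨g, mem_filter.2 ⟨hg, hgS⟩, hig⟩

theorem empty_mem_gen (G : Finset (Finset α)) : ∅ ∈ gen G := mem_gen.2 (by simp)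

theorem union_mem_gen {G : Finset (Finset α)} {X Y : Finset α} (hX : X ∈ gen G) (hY : Y ∈ gen G) :
    X ∪ Y ∈ gen G := by
  rw [mem_gen] at *
  intro i hi
  rcases mem_union.1 hi with h | h
  · obtain ⟨g, hg, h1, h2⟩ := hX i h
    exact ⟨g, hg, h1, h2.trans subset_union_left⟩
  · obtain ⟨g, hg, h1, h2⟩ := hY i h
    exact ⟨g, hg, h1, h2.trans subset_union_right⟩

theorem self_mem_gen {G : Finset (Finset α)} {g : Finset α} (hg : g ∈ G) : g ∈ gen G :=
  mem_gen.2 fun i hi => ⟨g, hg, hi, Subset.refl _⟩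

theorem gen_disj (G : Finset (Finset α)) (g : Finset α) :
    gen (G.filter (fun h => Disjoint g h)) = (gen G).filter (fun Y => Disjoint g Y) := by
  ext S
  rw [mem_filter, mem_gen, mem_gen]
  constructor
  · intro h
    refine ⟨fun i hi => ?_, ?_⟩
    · obtain ⟨k, hk, h1, h2⟩ := h i hi
      exact ⟨k, (mem_filter.1 hk).1, h1, h2⟩
    · rw [Finset.disjoint_right]
      intro i hi hig
      obtain ⟨k, hk, h1, h2⟩ := h i hi
      exact Finset.disjoint_left.1 (mem_filter.1 hk).2 hig h1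
  · rintro ⟨h, hd⟩ i hi
    obtain ⟨k, hk, h1, h2⟩ := h i hi
    exact ⟨k, mem_filter.2 ⟨hk, hd.mono_right h2⟩, h1, h2⟩

theorem gen_sub (G : Finset (Finset α)) (g : Finset α) :
    gen (G.filter (fun h => h ⊆ g)) = (gen G).filter (fun Y => Y ⊆ g) := by
  ext S
  rw [mem_filter, mem_gen, mem_gen]
  constructor
  · intro h
    refine ⟨fun i hi => ?_, fun i hi => ?_⟩
    · obtain ⟨k, hk, h1, h2⟩ := h i hi
      exact ⟨k, (mem_filter.1 hk).1, h1, h2⟩
    · obtain ⟨k, hk, h1, h2⟩ := h i hi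
      exact (mem_filter.1 hk).2 h1
  · rintro ⟨h, hd⟩ i hi
    obtain ⟨k, hk, h1, h2⟩ := h i hi
    exact ⟨k, mem_filter.2 ⟨hk, h2.trans hd⟩, h1, h2⟩

/-- every nonempty subfamily has a member with a two-element tip -/
def Tip (G : Finset (Finset α)) : Prop :=
  ∀ G' ⊆ G, G'.Nonempty → ∃ g ∈ G', ∃ a ∈ g, ∃ b ∈ g,
    ∀ h ∈ G', (g ∩ h).Nonempty → a ∈ h ∨ b ∈ h

theorem Tip.mono {G G' : Finset (Finset α)} (h : Tip G) (hs : G' ⊆ G) : Tip G' :=
  fun G'' h1 h2 => h G'' (h1.trans hs) h2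

theorem inj_sum {β : Type*} [DecidableEq β] {s t : Finset β} {w : β → ℕ} (φ : β → β)
    (hφ : ∀ Y ∈ s, φ Y ∈ t) (hinj : Set.InjOn φ s) (hw : ∀ Y ∈ s, w Y ≤ w (φ Y)) :
    ∑ Y ∈ s, w Y ≤ ∑ Y ∈ t, w Y := by
  calc ∑ Y ∈ s, w Y ≤ ∑ Y ∈ s, w (φ Y) := Finset.sum_le_sum hw
    _ = ∑ Z ∈ s.image φ, w Z := (Finset.sum_image hinj).symm
    _ ≤ ∑ Y ∈ t, w Y := Finset.sum_le_sum_of_subset (Finset.image_subset_iff.2 hφ)

theorem inj_sum_eq {β : Type*} [DecidableEq β] {s t : Finset β} {w : β → ℕ} (φ : β → β)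
    (hφ : ∀ Y ∈ s, φ Y ∈ t) (hinj : Set.InjOn φ s) (hw : ∀ Y ∈ s, w Y ≤ w (φ Y))
    (hpos : ∀ Y ∈ t, 0 < w Y) (hle : ∑ Y ∈ t, w Y ≤ ∑ Y ∈ s, w Y) :
    (∀ Z ∈ t, ∃ Y ∈ s, φ Y = Z) ∧ ∀ Y ∈ s, w (φ Y) = w Y := by
  have h1 : ∑ Y ∈ s, w Y ≤ ∑ Y ∈ s, w (φ Y) := Finset.sum_le_sum hw
  have h2 : ∑ Y ∈ s, w (φ Y) = ∑ Z ∈ s.image φ, w Z := (Finset.sum_image hinj).symm
  have hsub : s.image φ ⊆ t := Finset.image_subset_iff.2 hφ
  have h3 : ∑ Z ∈ s.image φ, w Z ≤ ∑ Y ∈ t, w Y := Finset.sum_le_sum_of_subset hsub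
  constructor
  · intro Z hZ
    by_contra hcon
    push Not at hcon
    have hZi : Z ∉ s.image φ := by
      rw [mem_image]
      rintro ⟨Y, hY, h⟩
      exact hcon Y hY h
    have h4 := Finset.sum_lt_sum_of_subset hsub hZ hZi (hpos Z hZ) (fun j _ _ => Nat.zero_le _)
    omega
  · have h5 : ∑ Y ∈ s, w Y = ∑ Y ∈ s, w (φ Y) := by omega
    have := (Finset.sum_eq_sum_iff_of_le hw).1 h5
    intro Y hY
    exact (this Y hY).symm

/-- the weight of the members containing `x` -/
def F (A : Finset (Finset α)) (w : Finset α → ℕ) (x : α) : ℕ := ∑ Y ∈ A.filter (fun Y => x ∈ Y), w Y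

theorem incl_excl (A : Finset (Finset α)) (w : Finset α → ℕ) (a b : α) :
    F A w a + F A w b + ∑ Y ∈ A.filter (fun Y => a ∉ Y ∧ b ∉ Y), w Y =
      ∑ Y ∈ A, w Y + ∑ Y ∈ A.filter (fun Y => a ∈ Y ∧ b ∈ Y), w Y := by
  unfold F
  simp only [Finset.sum_filter, ← Finset.sum_add_distrib]
  apply Finset.sum_congr rfl
  intro Y _
  by_cases ha : a ∈ Y <;> by_cases hb : b ∈ Y <;> simp [ha, hb]

theorem blocks_of_product {A A0 Ag : Finset (Finset α)} {g : Finset α}
    (hU : ∀ X ∈ A, ∀ Y ∈ A, X ∪ Y ∈ A) (h0 : ∅ ∈ A)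
    (hA0 : ∀ Y, Y ∈ A0 ↔ Y ∈ A ∧ Disjoint g Y) (hAg : ∀ Y, Y ∈ Ag ↔ Y ∈ A ∧ Y ⊆ g)
    (hd : ∀ Y ∈ A, Y \ g ∈ A) (hi : ∀ Y ∈ A, Y ∩ g ∈ A)
    (b0 : Blocks A0) (bg : Blocks Ag) : Blocks A := by
  obtain ⟨P, hP1, hP2, hP3⟩ := b0
  obtain ⟨R, hR1, hR2, hR3⟩ := bg
  have hPA : ∀ p ∈ P, p ∈ A ∧ Disjoint g p := by
    intro p hp
    exact (hA0 p).1 ((hP3 p).2 ⟨{p}, by simpa using hp, by simp⟩)
  have hRA : ∀ p ∈ R, p ∈ A ∧ p ⊆ g := by
    intro p hp
    exact (hAg p).1 ((hR3 p).2 ⟨{p}, by simpa using hp, by simp⟩)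
  refine ⟨P ∪ R, ?_, ?_, ?_⟩
  · intro p hp
    rcases mem_union.1 hp with h | h
    · exact hP1 p h
    · exact hR1 p h
  · intro p hp q hq hpq
    rcases mem_union.1 hp with h | h
    · rcases mem_union.1 hq with h' | h'
      · exact hP2 p h q h' hpq
      · exact ((hPA p h).2.mono_left (hRA q h').2).symm
    · rcases mem_union.1 hq with h' | h'
      · exact (hPA q h').2.mono_left (hRA p h).2
      · exact hR2 p h q h' hpq
  · intro S
    constructor
    · intro hS
      obtain ⟨Q, hQ, h1⟩ := (hP3 (S \ g)).1 ((hA0 _).2 ⟨hd S hS, Finset.disjoint_sdiff⟩)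
      obtain ⟨Q', hQ', h2⟩ := (hR3 (S ∩ g)).1 ((hAg _).2 ⟨hi S hS, inter_subset_right⟩)
      refine ⟨Q ∪ Q', union_subset_union hQ hQ', ?_⟩
      rw [Finset.sup_union, ← h1, ← h2]
      exact (Finset.sdiff_union_inter S g).symm
    · rintro ⟨Q, hQ, rfl⟩
      apply sup_mem_of hU h0
      intro q hq
      rcases mem_union.1 (hQ hq) with h | h
      · exact (hPA q h).1
      · exact (hRA q h).1

/-- the case in which all members are contained in the tipped member -/
theorem top_case {A : Finset (Finset α)} (hU : ∀ X ∈ A, ∀ Y ∈ A, X ∪ Y ∈ A) (h0 : ∅ ∈ A)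
    {g : Finset α} (hg : g ∈ A) {a b : α} (ha : a ∈ g) (hb : b ∈ g)
    (h00 : ∀ Y ∈ A, a ∉ Y → b ∉ Y → Y = ∅) (h11 : ∀ Y ∈ A, a ∈ Y → b ∈ Y → Y = g)
    (hsub : ∀ Y ∈ A, Y ⊆ g)
    (hl : ∀ x, 2 * fr A x ≤ A.card) : Blocks A := by
  classical
  set P := A.filter (fun Y => a ∈ Y ∧ b ∉ Y) with hP
  set Q := A.filter (fun Y => b ∈ Y ∧ a ∉ Y) with hQ
  have hmP : ∀ Y, Y ∈ P ↔ Y ∈ A ∧ a ∈ Y ∧ b ∉ Y := fun Y => by rw [hP, mem_filter]
  have hmQ : ∀ Y, Y ∈ Q ↔ Y ∈ A ∧ b ∈ Y ∧ a ∉ Y := fun Y => by rw [hQ, mem_filter]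
  have hg0 : g ≠ ∅ := fun h => by rw [h] at ha; simp at ha
  have hgP : g ∉ P := fun h => ((hmP g).1 h).2.2 hb
  have hgQ : g ∉ Q := fun h => ((hmQ g).1 h).2.2 ha
  have hPQ : Disjoint P Q := by
    rw [Finset.disjoint_left]
    intro Y h1 h2
    exact ((hmP Y).1 h1).2.2 ((hmQ Y).1 h2).2.1
  have hAeq : A = insert ∅ (insert g (P ∪ Q)) := by
    ext Y
    rw [mem_insert, mem_insert, mem_union, hmP, hmQ]
    constructor
    · intro hY
      by_cases hay : a ∈ Y
      · by_cases hby : b ∈ Y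
        · exact Or.inr (Or.inl (h11 Y hY hay hby))
        · exact Or.inr (Or.inr (Or.inl ⟨hY, hay, hby⟩))
      · by_cases hby : b ∈ Y
        · exact Or.inr (Or.inr (Or.inr ⟨hY, hby, hay⟩))
        · exact Or.inl (h00 Y hY hay hby)
    · rintro (rfl | rfl | h | h)
      · exact h0
      · exact hg
      · exact h.1
      · exact h.1
  have hcard : A.card = P.card + Q.card + 2 := by
    rw [hAeq, card_insert_of_notMem, card_insert_of_notMem, card_union_of_disjoint hPQ]
    · rw [mem_union, not_or]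
      exact ⟨hgP, hgQ⟩
    · rw [mem_insert, mem_union, hmP, hmQ]
      rintro (h | ⟨_, h, _⟩ | ⟨_, h, _⟩)
      · exact hg0 h.symm
      · simp at h
      · simp at h
  have hfa : P.card + 1 ≤ fr A a := by
    rw [← card_insert_of_notMem hgP]
    apply card_le_card
    intro Y hY
    rw [mem_filter]
    rcases mem_insert.1 hY with rfl | hY
    · exact ⟨hg, ha⟩
    · exact ⟨((hmP Y).1 hY).1, ((hmP Y).1 hY).2.1⟩
  have hfb : Q.card + 1 ≤ fr A b := by
    rw [← card_insert_of_notMem hgQ]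
    apply card_le_card
    intro Y hY
    rw [mem_filter]
    rcases mem_insert.1 hY with rfl | hY
    · exact ⟨hg, hb⟩
    · exact ⟨((hmQ Y).1 hY).1, ((hmQ Y).1 hY).2.1⟩
  have hla := hl a
  have hlb := hl b
  have hPQc : P.card = Q.card := by omega
  have hun : ∀ p ∈ P, ∀ q ∈ Q, p ∪ q = g := by
    intro p hp q hq
    rw [hmP] at hp
    rw [hmQ] at hq
    exact h11 _ (hU p hp.1 q hq.1) (mem_union_left _ hp.2.1) (mem_union_right _ hq.2.1)
  have hPone : ∀ p ∈ P, ∀ p' ∈ P, p ⊆ p' := by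
    intro p hp p' hp' c hc
    by_contra hcp
    have hcq : ∀ q ∈ Q, c ∈ q := by
      intro q hq
      have h1 : c ∈ p' ∪ q := by
        rw [hun p' hp' q hq]
        exact hsub p ((hmP p).1 hp).1 hc
      rcases mem_union.1 h1 with h | h
      · exact absurd h hcp
      · exact h
    have h2 : Q.card + 2 ≤ fr A c := by
      have h3 : (insert g (insert p Q)).card = Q.card + 2 := by
        rw [card_insert_of_notMem, card_insert_of_notMem]
        · exact fun h => Finset.disjoint_left.1 hPQ hp h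
        · rw [mem_insert, not_or]
          exact ⟨fun h => hgP (h ▸ hp), hgQ⟩
      rw [← h3]
      apply card_le_card
      intro Y hY
      rw [mem_filter]
      rcases mem_insert.1 hY with rfl | hY
      · exact ⟨hg, hsub p ((hmP p).1 hp).1 hc⟩
      · rcases mem_insert.1 hY with rfl | hY
        · exact ⟨((hmP _).1 hp).1, hc⟩
        · exact ⟨((hmQ Y).1 hY).1, hcq Y hY⟩
    have := hl c
    omega
  have hQone : ∀ p ∈ Q, ∀ p' ∈ Q, p ⊆ p' := by
    intro p hp p' hp' c hc
    by_contra hcp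
    have hcq : ∀ q ∈ P, c ∈ q := by
      intro q hq
      have h1 : c ∈ q ∪ p' := by
        rw [hun q hq p' hp']
        exact hsub p ((hmQ p).1 hp).1 hc
      rcases mem_union.1 h1 with h | h
      · exact h
      · exact absurd h hcp
    have h2 : P.card + 2 ≤ fr A c := by
      have h3 : (insert g (insert p P)).card = P.card + 2 := by
        rw [card_insert_of_notMem, card_insert_of_notMem]
        · exact fun h => Finset.disjoint_left.1 hPQ h hp
        · rw [mem_insert, not_or]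
          exact ⟨fun h => hgQ (h ▸ hp), hgP⟩
      rw [← h3]
      apply card_le_card
      intro Y hY
      rw [mem_filter]
      rcases mem_insert.1 hY with rfl | hY
      · exact ⟨hg, hsub p ((hmQ p).1 hp).1 hc⟩
      · rcases mem_insert.1 hY with rfl | hY
        · exact ⟨((hmQ _).1 hp).1, hc⟩
        · exact ⟨((hmP Y).1 hY).1, hcq Y hY⟩
    have := hl c
    omega
  rcases P.eq_empty_or_nonempty with hPe | ⟨p, hp⟩
  · have hQe : Q = ∅ := by
      rw [← Finset.card_eq_zero, ← hPQc, hPe, card_empty]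
    refine ⟨{g}, ?_, ?_, ?_⟩
    · intro p hp
      rw [mem_singleton.1 hp]
      exact ⟨a, ha⟩
    · intro p hp q hq hpq
      rw [mem_singleton.1 hp, mem_singleton.1 hq] at hpq
      exact absurd rfl hpq
    · intro S
      rw [hAeq, hPe, hQe]
      simp only [union_empty, mem_insert, notMem_empty, or_false]
      constructor
      · rintro (h | h)
        · exact ⟨∅, by simp, by simp [h]⟩
        · exact ⟨{g}, by simp, by simp [h]⟩
      · rintro ⟨R, hR, h⟩
        rcases Finset.subset_singleton_iff.1 hR with hR' | hR'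
        · left; rw [h, hR']; simp
        · right; rw [h, hR']; simp
  · have hQne : Q.Nonempty := by
      rw [← Finset.card_pos, ← hPQc]
      exact Finset.card_pos.2 ⟨p, hp⟩
    obtain ⟨q, hq⟩ := hQne
    have hPs : P = {p} := by
      ext Y
      rw [mem_singleton]
      constructor
      · intro hY
        exact Subset.antisymm (hPone Y hY p hp) (hPone p hp Y hY)
      · rintro rfl
        exact hp
    have hQs : Q = {q} := by
      ext Y
      rw [mem_singleton]
      constructor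
      · intro hY
        exact Subset.antisymm (hQone Y hY q hq) (hQone q hq Y hY)
      · rintro rfl
        exact hq
    have hpq : Disjoint p q := by
      rw [Finset.disjoint_left]
      intro c hcp hcq
      have h3 : ({g, p, q} : Finset (Finset α)).card = 3 := by
        rw [card_insert_of_notMem, card_insert_of_notMem, card_singleton]
        · rw [mem_singleton]
          intro h
          exact Finset.disjoint_left.1 hPQ hp (h ▸ hq)
        · rw [mem_insert, mem_singleton, not_or]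
          exact ⟨fun h => hgP (h ▸ hp), fun h => hgQ (h ▸ hq)⟩
      have h4 : 3 ≤ fr A c := by
        rw [← h3]
        apply card_le_card
        intro Y hY
        simp only [mem_insert, mem_singleton] at hY
        rw [mem_filter]
        rcases hY with rfl | rfl | rfl
        · exact ⟨hg, hsub p ((hmP p).1 hp).1 hcp⟩
        · exact ⟨((hmP _).1 hp).1, hcp⟩
        · exact ⟨((hmQ _).1 hq).1, hcq⟩
      have h5 := hl c
      rw [hcard, hPs, hQs, card_singleton, card_singleton] at h5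
      omega
    refine ⟨{p, q}, ?_, ?_, ?_⟩
    · intro r hr
      simp only [mem_insert, mem_singleton] at hr
      rcases hr with rfl | rfl
      · exact ⟨a, ((hmP _).1 hp).2.1⟩
      · exact ⟨b, ((hmQ _).1 hq).2.1⟩
    · intro r hr s hs hrs
      simp only [mem_insert, mem_singleton] at hr hs
      rcases hr with rfl | rfl
      · rcases hs with rfl | rfl
        · exact absurd rfl hrs
        · exact hpq
      · rcases hs with rfl | rfl
        · exact hpq.symm
        · exact absurd rfl hrs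
    · intro S
      constructor
      · intro hS
        rw [hAeq, hPs, hQs] at hS
        simp only [mem_insert, mem_union, mem_singleton] at hS
        rcases hS with rfl | rfl | rfl | rfl
        · exact ⟨∅, by simp, by simp⟩
        · refine ⟨{p, q}, Subset.refl _, ?_⟩
          rw [Finset.sup_insert, Finset.sup_singleton]
          exact (hun p hp q hq).symm
        · exact ⟨{S}, by simp, by simp⟩
        · exact ⟨{S}, by simp, by simp⟩
      · rintro ⟨R, hR, rfl⟩
        apply sup_mem_of hU h0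
        intro r hr
        have := hR hr
        simp only [mem_insert, mem_singleton] at this
        rcases this with rfl | rfl
        · exact ((hmP _).1 hp).1
        · exact ((hmQ _).1 hq).1

end Pool.Agent.X239.PM
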